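import Pool.Agent.MP_13199e_lc.PP.C.Spec

/-! PROJECT PP, block C: pointwise operations with multilinearization. -/

set_option autoImplicit false

namespace Pool.Agent.PP

open Function

variable {E : Type} [Field E] [Finite E] {w : ℕ} {enc : E ≃ (Fin w → Bool)} {y m : ℕ}
  {Idx Cx : Type} [AddCommGroup Idx]

theorem sumF_all (H : Hyp y m w E Idx) {C ι : Type} [Fintype ι] (hι : Nat.card ι ≤ 12)
    (Ψ : C → (ι → E) → E) : SumF (y ^ 72) Ψ := by
  classical
  refine ⟨ι → E, inferInstance, inferInstance, fun _ i a => Pi.single i a, Ψ, ?_, fun c v => by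
    rw [Finset.univ_sum_single]⟩
  rw [Nat.card_fun, H.cE, ← pow_mul]
  exact Nat.pow_le_pow_right (lt_of_lt_of_le (by norm_num) H.hy) (by omega)

namespace Cw

theorem num (hy : 2 ^ 20 ≤ y) {a : ℝ} (ha : a ≤ e0 y) :
    e3 y / (y : ℝ) ^ 51 + (y : ℝ) ^ 9 * a ≤ e1 y ∧ e1 y ≤ e3 y := by
  have h : (2 : ℝ) ≤ y := by exact_mod_cast le_trans (by norm_num) hy
  have h0 : (0 : ℝ) < y := by linarith
  refine ⟨(add_le_add le_rfl (mul_le_mul_of_nonneg_left ha (by positivity))).trans ?_,
    one_div_le_one_div_of_le (by positivity) (pow_le_pow_right₀ (by linarith) (by norm_num))⟩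
  unfold e0 e1 e3
  field_simp
  linarith

theorem e3_nn : 0 ≤ e3 y := by unfold e3; positivity

theorem deg (hy : 2 ^ 20 ≤ y) : 2 * y ^ 5 + y ≤ dd y ∧ 13 * y ≤ y ^ 2 ∧ y ^ 2 ≤ y ^ 5 := by
  have a : y ≤ y ^ 5 := Nat.le_self_pow (by norm_num) y
  have b := Nat.mul_le_mul_right (y ^ 5) hy
  refine ⟨Nat.le_sub_of_add_le ?_, by nlinarith, Nat.pow_le_pow_right (by omega) (by norm_num)⟩
  rw [pow_succ' y 5]
  omega

theorem steps (H : Hyp y m w E Idx) (h : OpS enc y m Idx Cx) (U : AddSubgroup Idx)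
    (l : List (Fin m)) : Real (locS Cx (Lb Idx E m)) (l.length * y ^ 160) (In := Fin w)
      (Out := Fin w) fun _ x o F => ∀ j d g, flt U j F ≤ e0 y → Ld d g → d + l.length ≤ dd y →
        err enc x U j g ≤ e1 y → err enc o U j (l.foldl (fun g i => mls i g) g) ≤ e1 y := by
  induction l with
  | nil => exact (Real.id _ id).mono (by simp) fun _ _ _ _ e _ _ _ _ _ _ k => e ▸ k
  | cons i l ih =>
    refine (((h U Bool (fun _ => 0) (fun _ b x => update x i (bif b then 1 else 0))
      (fun c v => (1 - c.2.2 i) * v false + c.2.2 i * v true)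
      (by have := deg H.hy; have := H.hy; simp only [Nat.card_eq_fintype_card, Fintype.card_bool]
          omega) (fun _ _ _ => rfl) (fun _ _ _ _ _ => rfl) (sumF_all H (by simp) _)).ren
      Prod.snd).comp ih).mono (by simp [Nat.succ_mul, add_comm]) ?_
    rintro c x o F ⟨z, a, b⟩ j d g hF hg hd he
    rw [List.length_cons] at hd
    exact b j (d + 1) _ hF (hg.mls i) (by omega) ((a j (fun _ => g) _ e3_nn le_rfl fun _ =>
      ⟨hg.mono (by omega), (add_zero j).symm ▸ he.trans (num H.hy hF).2⟩).trans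
        (num H.hy hF).1)

end Cw

open Cw

theorem cwS (H : Hyp y m w E Idx) (h : OpS enc y m Idx Cx) : CwS enc y m Idx Cx := by
  intro U ι _ γ Ψ h1 h2 h3
  have := H.hm
  refine ((h U ι γ (fun _ _ x => x) Ψ h1 (fun _ _ _ => rfl) h2 h3).comp
    (steps H h U (List.finRange m))).mono (by
      rw [List.length_finRange, add_comm, ← Nat.succ_mul]; gcongr; omega) ?_
  rintro c x o F ⟨z, a, b⟩ j g G hF he ⟨t1, t2, rfl⟩
  have := deg H.hy
  rw [← H.ld.ml fun p => Ψ (c, j, p) fun i => g i p]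
  exact b j _ _ hF t2 (by rw [List.length_finRange]; omega)
    ((a j g _ e3_nn le_rfl fun i => ⟨t1 i, he i⟩).trans (num H.hy hF).1)

theorem boS (H : Hyp y m w E Idx) (h : CwS enc y m Idx Cx) : BoS enc y m Idx Cx := by
  classical
  intro U Φ hΦ
  have := H.hm
  have := H.hy
  have := deg H.hy
  refine (h U (Ch × Bool) (fun _ => 0) (fun c v => ∑ be : Ch × Bool → Bool,
    mlp (fun k => Φ c.1 c.2.1 k fun i => be i) c.2.2 * ∏ i, if be i then v i else 1 - v i)
    (by simp; omega) (fun c x j u hu => by simp only [hΦ c j u hu]) (sumF_all H (by simp) _)).mono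
    (by rw [show y ^ 162 = y ^ 2 * y ^ 160 by ring]; gcongr; omega) ?_
  rintro c x o F a j g G hF he ⟨B, rfl, rfl⟩
  refine a j _ _ hF he ⟨fun i => (ld_mlp _).mono (by omega), Ld.sum _ fun be _ =>
    ((ld_mlp fun k => Φ c j k fun i => be i).mul (Ld.prod (d := m) Finset.univ (f := fun i p =>
      if be i then mlp (B i) p else 1 - mlp (B i) p) fun i _ => ?_)).mono
      (show m + 12 * m ≤ _ by omega),
    congrArg mle (funext fun k => ?_)⟩
  · split_ifs
    exacts [ld_mlp _, (Ld.const _ 1).sub (ld_mlp _)]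
  · simp only [mlp, H.ld.cube]
    rw [Finset.sum_eq_single (fun i => decide (B i k)) (fun be _ hb => ?_) (by simp),
      Finset.prod_eq_one fun i _ => by by_cases u : B i k <;> simp [u, bit], mul_one]
    · simp
    · obtain ⟨i, hi⟩ := ne_iff.1 hb
      rw [Finset.prod_eq_zero (Finset.mem_univ i), mul_zero]
      by_cases u : B i k <;> simp_all [bit]

end Pool.Agent.PP
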