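import Pool.Agent.MP_13199e_lc.PP.Calc

/-! PROJECT PP, block C: words, objects, low degree functions. -/

set_option autoImplicit false
set_option linter.unusedSectionVars false

namespace Pool.Agent.PP

open Function Polynomial

/-! ### Objects -/

section ob
variable {Idx Y : Type} [AddCommGroup Idx] {U U' : AddSubgroup Idx} {ι u : Idx}
  {B B' : Idx × Y → Prop}

/-- The density of `B` in the object `(ι + U) × Y`. -/
noncomputable def ob (U : AddSubgroup Idx) (ι : Idx) (B : Idx × Y → Prop) : ℝ :=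
  pr fun q : U × Y => B (ι + q.1, q.2)

/-- The density of the faults. -/
noncomputable def flt (U : AddSubgroup Idx) (ι : Idx) (F : Set (Idx × Y)) : ℝ := ob U ι (· ∈ F)

/-- `U'` is a subgroup of `U` of index at most `n`. -/
def Sub (U U' : AddSubgroup Idx) (n : ℕ) : Prop := U' ≤ U ∧ Nat.card U ≤ n * Nat.card U'

/-- Invariance under `U`. -/
def Inv {β : Type} (U : AddSubgroup Idx) (f : Idx → β) : Prop := ∀ ι, ∀ u ∈ U, f (ι + u) = f ι

theorem Inv.mono {β : Type} {f : Idx → β} (h : Inv U f) (h' : U' ≤ U) : Inv U' f :=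
  fun ι u hu => h ι u (h' hu)

theorem ob_add (hu : u ∈ U) (ι : Idx) (B : Idx × Y → Prop) : ob U (ι + u) B = ob U ι B := by
  refine Eq.trans ?_ (pr_equiv ((Equiv.addLeft (⟨u, hu⟩ : U)).prodCongr (Equiv.refl Y)) _)
  exact pr_congr fun q => by simp [add_assoc]

theorem ob_inv (U : AddSubgroup Idx) (B : Idx × Y → Prop) : Inv U fun ι => ob U ι B :=
  fun ι _ hu => ob_add hu ι B

theorem ob_congr (h : ∀ u ∈ U, ∀ z, B (ι + u, z) ↔ B' (ι + u, z)) : ob U ι B = ob U ι B' :=
  pr_congr fun q => h _ q.1.2 _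

variable [Finite Idx] [Finite Y]

theorem ob_nonneg (U : AddSubgroup Idx) (ι : Idx) (B : Idx × Y → Prop) : 0 ≤ ob U ι B :=
  pr_nonneg _

theorem ob_le_one (U : AddSubgroup Idx) (ι : Idx) (B : Idx × Y → Prop) : ob U ι B ≤ 1 :=
  pr_le_one _

theorem ob_mono (h : ∀ u ∈ U, ∀ z, B (ι + u, z) → B' (ι + u, z)) : ob U ι B ≤ ob U ι B' :=
  pr_mono fun q => h _ q.1.2 _

theorem ob_le_add {B'' : Idx × Y → Prop}
    (h : ∀ u ∈ U, ∀ z, B (ι + u, z) → B' (ι + u, z) ∨ B'' (ι + u, z)) :
    ob U ι B ≤ ob U ι B' + ob U ι B'' := pr_le_add fun q => h _ q.1.2 _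

theorem flt_nonneg (U : AddSubgroup Idx) (ι : Idx) (F : Set (Idx × Y)) : 0 ≤ flt U ι F :=
  pr_nonneg _

/-- An invariant function has the same average over `U` and over a system of shifts that covers
`U` modulo `U'`. -/
theorem av_cover {A : Type} [AddCommGroup A] [Finite A] {f : Idx → ℝ} (hf : Inv U' f)
    (s : A →+ Idx) (h1 : ∀ a, s a ∈ U) (h2 : ∀ u ∈ U, ∃ a, u - s a ∈ U') (ι : Idx) :
    av (fun a => f (ι + s a)) = av fun u : U => f (ι + u) := by
  have e1 : ∀ u : U, av (fun a => f (ι + u + s a)) = av fun a => f (ι + s a) := fun u => by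
    obtain ⟨b, hb⟩ := h2 u u.2
    refine Eq.trans (av_congr fun a => ?_) (av_shift (fun a => f (ι + s a)) b)
    rw [← hf (ι + s (a + b)) _ hb, map_add]
    congr 1
    abel
  rw [← av_av_shift (fun u : U => f (ι + u)) fun a => ⟨s a, h1 a⟩]
  simp only [AddSubgroup.coe_add, ← add_assoc, e1, av_const]

theorem ob_avg (h : U' ≤ U) (ι : Idx) (B : Idx × Y → Prop) :
    av (fun u : U => ob U' (ι + u) B) = ob U ι B := by
  simp only [ob, pr_prod]
  rw [← av_av_shift (fun u : U => pr fun z => B (ι + u, z)) fun a : U' => ⟨a, h a.2⟩]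
  simp only [AddSubgroup.coe_add, add_assoc]

theorem ob_sub {n : ℕ} (h : Sub U U' n) (ι : Idx) (B : Idx × Y → Prop) :
    ob U' ι B ≤ n * ob U ι B := by
  have := Fintype.ofFinite U
  have := Fintype.ofFinite U'
  have p1 : (0 : ℝ) < Fintype.card U := Nat.cast_pos.2 Fintype.card_pos
  have p2 : (0 : ℝ) < Fintype.card U' := Nat.cast_pos.2 Fintype.card_pos
  have p3 : (Fintype.card U : ℝ) ≤ n * Fintype.card U' := by
    have := h.2
    rw [Nat.card_eq_fintype_card, Nat.card_eq_fintype_card] at this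
    exact_mod_cast this
  have p4 : ∑ u : U', pr (fun z => B (ι + u, z)) ≤ ∑ u : U, pr fun z => B (ι + u, z) := by
    classical
    rw [← Finset.sum_map_val]
    refine le_trans (le_of_eq ?_) (Finset.sum_le_univ_sum_of_nonneg
      (s := Finset.univ.map ⟨AddSubgroup.inclusion h.1, AddSubgroup.inclusion_injective h.1⟩)
      fun _ => pr_nonneg _)
    rw [Finset.sum_map]
    rfl
  have p5 : 0 ≤ ∑ u : U, pr fun z => B (ι + u, z) := Finset.sum_nonneg fun _ _ => pr_nonneg _
  simp only [ob, pr_prod, av_eq]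
  rw [div_le_iff₀ p2, mul_div_assoc', div_mul_eq_mul_div, le_div_iff₀ p1]
  nlinarith [mul_le_mul_of_nonneg_left p3 p5, mul_le_mul_of_nonneg_right p4 p1.le]

/-- The index is at most the size of the range of `χ`. -/
theorem sub_of_ker {A : Type} [AddCommGroup A] [Finite A] (χ : Idx →+ A) (h : U' ≤ U)
    (h' : ∀ u ∈ U, χ u = 0 → u ∈ U') {n : ℕ} (hn : Nat.card A ≤ n) : Sub U U' n := by
  refine ⟨h, ?_⟩
  rw [← AddSubgroup.card_mul_index (χ.comp U.subtype).ker, AddSubgroup.index_ker, mul_comm]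
  refine Nat.mul_le_mul ((Finite.card_subtype_le _).trans hn) (Nat.card_le_card_of_injective
    (fun a => (⟨a.1.1, h' _ a.1.2 a.2⟩ : U')) fun a b e => ?_)
  exact Subtype.ext (Subtype.ext (congrArg (fun x : U' => (x : Idx)) e))

end ob

/-! ### Low degree functions -/

section ld
variable {E : Type} [Field E] {m d d' : ℕ} {f g : (Fin m → E) → E}

/-- Polynomial of degree at most `d` on every line. -/
def Ld (d : ℕ) (g : (Fin m → E) → E) : Prop :=
  ∀ x ρ, ∃ p : E[X], p.natDegree ≤ d ∧ ∀ t, g (x + t • ρ) = p.eval t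

open Classical in
/-- A proposition as an element of the field. -/
noncomputable def bit (p : Prop) : E := if p then 1 else 0

/-- The points of the cube. -/
noncomputable def cub (c : Bv m) : Fin m → E := fun i => bit (c i ≠ 0)

/-- The multilinear extension. -/
noncomputable def mle (o : Bv m → E) (x : Fin m → E) : E :=
  ∑ c : Bv m, (∏ i, if c i = 0 then 1 - x i else x i) * o c

/-- The multilinear extension of a bit vector. -/
noncomputable def mlp (o : Bv m → Prop) : (Fin m → E) → E := mle fun c => bit (o c)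

/-- One step of the multilinearization. -/
def mls (i : Fin m) (f : (Fin m → E) → E) (x : Fin m → E) : E :=
  (1 - x i) * f (update x i 0) + x i * f (update x i 1)

theorem bit_pos {p : Prop} (h : p) : (bit p : E) = 1 := if_pos h
theorem bit_neg {p : Prop} (h : ¬p) : (bit p : E) = 0 := if_neg h
theorem bit_ne {p : Prop} : (bit p : E) ≠ 0 ↔ p := by by_cases h : p <;> simp [bit, h]

theorem Ld.mono (h : Ld d g) (hd : d ≤ d') : Ld d' g := fun x ρ =>
  let ⟨p, h1, h2⟩ := h x ρ
  ⟨p, h1.trans hd, h2⟩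

theorem Ld.const (d : ℕ) (a : E) : Ld d fun _ : Fin m → E => a := fun _ _ =>
  ⟨C a, by simp, by simp⟩

theorem Ld.lin (l : (Fin m → E) →ₗ[E] E) : Ld 1 l := fun x ρ =>
  ⟨C (l ρ) * X + C (l x), natDegree_linear_le, fun t => by simp; ring⟩

theorem Ld.coord (i : Fin m) : Ld 1 fun x : Fin m → E => x i := Ld.lin (LinearMap.proj i)

theorem Ld.add (hf : Ld d f) (hg : Ld d g) : Ld d fun x => f x + g x := fun x ρ =>
  let ⟨p, h1, h2⟩ := hf x ρ
  let ⟨q, h3, h4⟩ := hg x ρ
  ⟨p + q, natDegree_add_le_of_degree_le h1 h3, fun t => by simp [h2, h4]⟩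

theorem Ld.sub (hf : Ld d f) (hg : Ld d g) : Ld d fun x => f x - g x := fun x ρ =>
  let ⟨p, h1, h2⟩ := hf x ρ
  let ⟨q, h3, h4⟩ := hg x ρ
  ⟨p - q, (natDegree_sub_le _ _).trans (max_le h1 h3), fun t => by simp [h2, h4]⟩

theorem Ld.mul (hf : Ld d f) (hg : Ld d' g) : Ld (d + d') fun x => f x * g x := fun x ρ =>
  let ⟨p, h1, h2⟩ := hf x ρ
  let ⟨q, h3, h4⟩ := hg x ρ
  ⟨p * q, natDegree_mul_le_of_le h1 h3, fun t => by simp [h2, h4]⟩

theorem Ld.sum {ι : Type} (s : Finset ι) {f : ι → (Fin m → E) → E} (h : ∀ i ∈ s, Ld d (f i)) :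
    Ld d fun x => ∑ i ∈ s, f i x := by
  classical
  induction s using Finset.induction_on with
  | empty => exact Ld.const d 0
  | insert a s ha ih =>
    simp only [Finset.sum_insert ha]
    exact (h a (by simp)).add (ih fun i hi => h i (by simp [hi]))

theorem Ld.prod {ι : Type} (s : Finset ι) {f : ι → (Fin m → E) → E} (h : ∀ i ∈ s, Ld d (f i)) :
    Ld (s.card * d) fun x => ∏ i ∈ s, f i x := by
  classical
  induction s using Finset.induction_on with
  | empty => exact Ld.const _ 1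
  | insert a s ha ih =>
    simp only [Finset.prod_insert ha, Finset.card_insert_of_notMem ha, Nat.succ_mul]
    exact add_comm d _ ▸ (h a (by simp)).mul (ih fun i hi => h i (by simp [hi]))

theorem Ld.poly (h : Ld d g) (q : E[X]) : Ld (q.natDegree * d) fun x => q.eval (g x) :=
  fun x ρ => let ⟨p, h1, h2⟩ := h x ρ
  ⟨q.comp p, natDegree_comp_le.trans (Nat.mul_le_mul_left _ h1), fun t => by simp [h2, eval_comp]⟩

theorem Ld.aff (h : Ld d g) (A : (Fin m → E) →ₗ[E] Fin m → E) (b : Fin m → E) :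
    Ld d fun x => g (A x + b) := fun x ρ =>
  let ⟨p, h1, h2⟩ := h (A x + b) (A ρ)
  ⟨p, h1, fun t => by
    beta_reduce
    rw [← h2, map_add, map_smul, add_right_comm]⟩

theorem Ld.upd (h : Ld d g) (i : Fin m) (a : E) : Ld d fun x => g (update x i a) := fun x ρ =>
  let ⟨p, h1, h2⟩ := h (update x i a) (update ρ i 0)
  ⟨p, h1, fun t => by
    beta_reduce
    rw [← h2]
    congr 1
    funext j
    by_cases e : j = i
    · subst e; simp
    · simp [e]⟩

theorem Ld.mls (h : Ld d g) (i : Fin m) : Ld (d + 1) (mls i g) :=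
  add_comm 1 d ▸ (((Ld.const 1 1).sub (Ld.coord i)).mul (h.upd i 0)).add
    ((Ld.coord i).mul (h.upd i 1))

theorem ld_mle (o : Bv m → E) : Ld m (mle o) := by
  refine Ld.sum _ fun c _ => ?_
  have : Ld (Finset.univ.card * 1) fun x : Fin m → E => ∏ i, if c i = 0 then 1 - x i else x i :=
    Ld.prod _ fun i _ => by
      split_ifs
      exacts [(Ld.const 1 1).sub (Ld.coord i), Ld.coord i]
  simpa using this.mul (Ld.const 0 (o c))

theorem ld_mlp (o : Bv m → Prop) : Ld m (mlp o : (Fin m → E) → E) := ld_mle _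

/-- LD: further facts on low degree functions. -/
structure LdK (m : ℕ) (E : Type) [Field E] : Prop where
  cube : ∀ (o : Bv m → E) (c : Bv m), mle o (cub c) = o c
  uniq : ∀ {d : ℕ} {f g : (Fin m → E) → E}, d + 1 < Nat.card E → Ld d f → Ld d g →
    pr (fun x => f x ≠ g x) < 1 / (d + 1) → f = g
  node : ∀ d : ℕ, d + 1 < Nat.card E → ∃ (t : Fin (d + 1) → E) (c : E → Fin (d + 1) → E),
    (∀ i, t i ≠ 0) ∧ ∀ W : E → E, (∃ p : E[X], p.natDegree ≤ d ∧ ∀ s, W s = p.eval s) ↔
      ∀ s, W s = ∑ i, c s i * W (t i)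
  ml : ∀ f : (Fin m → E) → E, (List.finRange m).foldl (fun g i => mls i g) f =
    mle fun c => f (cub c)
  add : ∀ a b : Bv m, (cub (a + b) : Fin m → E) = cub a + cub b
  map : ∀ A : Bv m →+ Bv m, ∃ A' : (Fin m → E) →ₗ[E] Fin m → E, ∀ c, A' (cub c) = cub (A c)
  form : ∀ l : Bv m →+ ZMod 2, ∃ l' : (Fin m → E) →ₗ[E] E, ∀ c, l' (cub c) = bit (l c ≠ 0)

end ld

/-! ### Words -/

section word
variable {E P Idx : Type} {m w : ℕ}

/-- The word `W` holds the pure symbol `a` at the position `p`. -/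
def Is (enc : E ≃ (Fin w → Bool)) (W : Fin w → P → V4) (p : P) (a : E) : Prop :=
  ∀ b, W b p = ofB (enc a b)

theorem Is.uniq {enc : E ≃ (Fin w → Bool)} {W : Fin w → P → V4} {p : P} {a b : E}
    (h : Is enc W p a) (h' : Is enc W p b) : a = b :=
  enc.injective (funext fun i => ofB_inj ((h i).symm.trans (h' i)))

/-- Labels: registers, a point and a replica. -/
abbrev Lb (Idx E : Type) (m : ℕ) : Type := Idx × (Fin m → E) × (Fin m → E)

/-- The distance of the word `W` from the function `G` in an object. -/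
noncomputable def err [AddCommGroup Idx] (enc : E ≃ (Fin w → Bool)) (W : Fin w → Lb Idx E m → V4)
    (U : AddSubgroup Idx) (ι : Idx) (G : (Fin m → E) → E) : ℝ :=
  ob U ι fun l => ¬Is enc W l (G l.2.1)

end word

/-- The bounds on errors of inputs, errors of outputs and faults. -/
noncomputable def e3 (y : ℕ) : ℝ := 1 / (y : ℝ) ^ 9
noncomputable def e1 (y : ℕ) : ℝ := 1 / (y : ℝ) ^ 59
noncomputable def e0 (y : ℕ) : ℝ := 1 / (y : ℝ) ^ 69

/-- The degree that the self-correction tolerates. -/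
def dd (y : ℕ) : ℕ := y ^ 6 - 2

/-- Samplers with `s` elements exist for all elementary groups with at most `n` elements. -/
def HasSmp (n s : ℕ) (lam : ℝ) : Prop :=
  ∀ (G : Type) [AddCommGroup G] [Finite G], (∀ g : G, g + g = 0) → Nat.card G ≤ n →
    ∃ γ : Fin s → G, Smp γ lam

/-- The numerical setting of block C. -/
structure Hyp (y m w : ℕ) (E Idx : Type) [Field E] [AddCommGroup Idx] : Prop where
  hy : 2 ^ 20 ≤ y
  hm : m ≤ y
  hw : w ≤ y
  cE : Nat.card E = y ^ 6
  ch2 : ∀ a : E, a + a = 0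
  two : ∀ a : Idx, a + a = 0
  lg : Nat.card (Lb Idx E m) ≤ 2 ^ y
  s1 : HasSmp (Nat.card (Lb Idx E m)) (y ^ 2) (1 / 1024)
  s2 : HasSmp (Nat.card (Lb Idx E m)) (y ^ 62) (1 / (y : ℝ) ^ 30)
  ld : LdK m E

end Pool.Agent.PP
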