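import Pool.Agent.MP_13199e_lc.PP.C.Spec

/-! PROJECT PP, block C, row KC: the verdict in many versions. -/

set_option autoImplicit false

namespace Pool.Agent.PP

namespace Kc

variable {Idx Y : Type} [AddCommGroup Idx] [Finite Idx] [AddCommGroup Y] [Finite Y]
  {U : AddSubgroup Idx} {n : ℕ} {lam : ℝ}

/-- The effect of a threshold gate that reads along a sampler. -/
def ThR (U : AddSubgroup Idx) (lam θ : ℝ) (fl : Bool) (c o : Idx × Y → V4) (F : Set (Idx × Y)) :
    Prop := ∀ j ξ, 0 < ξ → ∀ a,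
  (a = ob U j (fun l => rd fl (c l) = some true) → θ + ξ ≤ a →
    ob U j (fun l => o l ≠ ofB true) ≤ lam ^ 2 * (a * (1 - a)) / ξ ^ 2 + flt U j F) ∧
  (a = ob U j (fun l => rd fl (c l) ≠ some false) → a + ξ ≤ θ →
    ob U j (fun l => o l ≠ ofB false) ≤ lam ^ 2 * (a * (1 - a)) / ξ ^ 2 + flt U j F)

theorem thr (hT : ThrS) (Cx : Type) (hn : 0 < n) {γ : Fin n → U × Y} (hγ : Smp γ lam) (θ : ℝ)
    (fl : Bool) : Real (locS Cx (Idx × Y)) (3 * (n + 2) ^ 2) (In := Unit) (Out := Unit)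
      fun _ x o F => ThR U lam θ fl (x ()) (o ()) F := by
  refine (hT _ Unit (Fin n) (locS Cx (Idx × Y)) (fun _ => ())
    (fun σ => Equiv.addRight (((γ σ).1 : Idx), (γ σ).2)) (fun _ => fl) fun _ => ⌈θ * n⌉₊).mono
    (by simp) fun _ x o F h j ξ hξ a => ?_
  have p : (0 : ℝ) < n := Nat.cast_pos.2 hn
  have key : ∀ (B : Idx × Y → Prop) (q : U × Y),
      pr (fun σ => B (j + (q + γ σ).1, (q + γ σ).2)) * n =
        cn fun σ => B (Equiv.addRight (((γ σ).1 : Idx), (γ σ).2) (j + q.1, q.2)) := fun B q => by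
    rw [pr_eq_cn, Nat.card_eq_fintype_card, Fintype.card_fin, div_mul_cancel₀ _ p.ne']
    simp [add_assoc]
  constructor <;> rintro rfl k
  · refine (pr_le_add fun q hq => ?_).trans (add_le_add (hγ.tail _ hξ) le_rfl)
    by_contra u
    rw [not_or, not_le, abs_lt] at u
    refine hq ((h _ u.2).1 (Nat.ceil_le.2 ?_))
    rw [← key (fun l => rd fl (x () l) = some true) q]
    exact mul_le_mul_of_nonneg_right (by unfold ob at k; linarith [u.1.1]) p.le
  · refine (pr_le_add fun q hq => ?_).trans (add_le_add (hγ.tail _ hξ) le_rfl)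
    by_contra u
    rw [not_or, not_le, abs_lt] at u
    refine hq ((h _ u.2).2 (Nat.lt_ceil.2 ?_))
    rw [← key (fun l => rd fl (x () l) ≠ some false) q]
    exact mul_lt_mul_of_pos_right (by unfold ob at k; linarith [u.1.2]) p

theorem ob_not (j : Idx) (B : Idx × Y → Prop) : ob U j (fun l => ¬B l) = 1 - ob U j B := pr_not _

variable {θ η : ℝ} {fl : Bool} {c o : Idx × Y → V4} {F : Set (Idx × Y)} {j : Idx}

theorem bd {a : ℝ} : lam ^ 2 * (a * (1 - a)) / (1 / 8) ^ 2 ≤ 16 * lam ^ 2 := by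
  rw [div_le_iff₀ (by norm_num)]
  nlinarith [mul_nonneg (sq_nonneg lam) (sq_nonneg (a - 1 / 2))]

theorem ThR.t (h : ThR U lam θ fl c o F) (e : 16 * lam ^ 2 + flt U j F ≤ η)
    (k : θ + 1 / 8 ≤ ob U j fun l => rd fl (c l) = some true) :
    ob U j (fun l => o l ≠ ofB true) ≤ η :=
  ((h j _ (by norm_num) _).1 rfl k).trans ((add_le_add bd le_rfl).trans e)

theorem ThR.f (h : ThR U lam θ fl c o F) (e : 16 * lam ^ 2 + flt U j F ≤ η)
    (k : ob U j (fun l => rd fl (c l) ≠ some false) + 1 / 8 ≤ θ) :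
    ob U j (fun l => o l ≠ ofB false) ≤ η :=
  ((h j _ (by norm_num) _).2 rfl k).trans ((add_le_add bd le_rfl).trans e)

theorem rd_t (fl : Bool) (c : Idx × Y → V4) (j : Idx) :
    1 - ob U j (fun l => c l ≠ ofB true) ≤ ob U j fun l => rd fl (c l) = some true := by
  rw [← ob_not]
  exact ob_mono fun _ _ _ k => by rw [not_not.1 k, rd_ofB]

theorem rd_f (fl : Bool) (c : Idx × Y → V4) (j : Idx) :
    ob U j (fun l => rd fl (c l) ≠ some false) ≤ ob U j fun l => c l ≠ ofB false :=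
  ob_mono fun _ _ _ k u => k (by rw [u, rd_ofB])

theorem ThR.cl (h : ThR U lam θ fl c o F) (e : 16 * lam ^ 2 + flt U j F ≤ η) (h1 : 1 / 4 ≤ θ)
    (h2 : θ ≤ 3 / 4) (h3 : η ≤ 1 / 8) {b : Bool} (k : ob U j (fun l => c l ≠ ofB b) ≤ η) :
    ob U j (fun l => o l ≠ ofB b) ≤ η := by
  cases b
  · exact h.f e (by linarith [rd_f (U := U) fl c j])
  · exact h.t e (by linarith [rd_t (U := U) fl c j])

theorem alt {o' : Idx × Y → V4} (h : ThR U lam (1 / 4) false c o F)
    (h' : ThR U lam (3 / 4) true c o' F) (e : 16 * lam ^ 2 + flt U j F ≤ η) :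
    ob U j (fun l => o l ≠ ofB true) ≤ η ∨ ob U j (fun l => o' l ≠ ofB false) ≤ η := by
  have : ∀ v, rd true v ≠ some false ↔ rd false v = some true := by decide
  rcases le_total (1 / 2) (ob U j fun l => rd false (c l) = some true) with k | k
  · exact .inl (h.t e (by linarith))
  · exact .inr (h'.f e (by simp only [this]; linarith))

theorem ThR.zero {ρ : ℝ} (h : ThR U lam (1 - ρ / 2) fl c o F) (hρ : 0 < ρ) :
    (ρ < ob U j (fun l => c l = ofB false) →
      ob U j (fun l => o l ≠ ofB false) ≤ 4 * lam ^ 2 / ρ + flt U j F) ∧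
    (ob U j (fun l => c l ≠ ofB true) ≤ ρ / 4 →
      ob U j (fun l => o l ≠ ofB true) ≤ 4 * lam ^ 2 / ρ + flt U j F) := by
  have l := sq_nonneg lam
  constructor <;> intro k
  · have e := (rd_f (U := U) fl c j).trans_eq (ob_not j _)
    have e' := ob_nonneg U j fun l => rd fl (c l) ≠ some false
    generalize ha : ob U j (fun l => rd fl (c l) ≠ some false) = a at e e'
    have p : 0 < (1 - a) / 2 := by linarith
    refine ((h j _ p a).2 ha.symm (by linarith)).trans (add_le_add ?_ le_rfl)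
    rw [div_le_div_iff₀ (pow_pos p 2) hρ]
    have : a * ρ ≤ 1 - a := by nlinarith
    nlinarith [mul_le_mul_of_nonneg_left this (mul_nonneg l p.le)]
  · have e := rd_t (U := U) fl c j
    have e' := ob_le_one U j fun l => rd fl (c l) = some true
    generalize ha : ob U j (fun l => rd fl (c l) = some true) = a at e e'
    have p : 0 < ρ / 4 := by linarith
    refine ((h j _ p a).1 ha.symm (by linarith)).trans (add_le_add ?_ le_rfl)
    rw [div_le_div_iff₀ (pow_pos p 2) hρ]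
    have : a * (1 - a) ≤ ρ / 4 := by nlinarith
    nlinarith [mul_le_mul_of_nonneg_left this (mul_nonneg l hρ.le)]

/-- All leaves but one are clean. -/
theorem one {N : ℕ} {C L : ℕ → Bool → Prop} (h1 : ∀ i < N, ∀ b, C i b → C (i + 1) b ∧ L i b)
    (h2 : ∀ i < N, C (i + 1) true ∨ L i false) :
    (∀ i b, C i b → ∀ k < N, i ≤ k → L k b) ∧ ∃ i, ∀ k < N, k ≠ i → ∃ b, L k b := by
  classical
  have a : ∀ i b, C i b → ∀ k < N, i ≤ k → L k b := fun i b h k hk e => by
    refine (h1 k hk b ?_).2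
    induction k, e using Nat.le_induction with
    | base => exact h
    | succ k _ ih => exact (h1 k (by omega) b (ih (by omega))).1
  refine ⟨a, ?_⟩
  by_cases e : ∃ i, i < N ∧ ¬L i false
  · refine ⟨Nat.find e, fun k hk ne => ?_⟩
    have := Nat.find_spec e
    rcases lt_or_gt_of_ne ne with u | u
    · exact ⟨false, by_contra fun v => Nat.find_min e u ⟨hk, v⟩⟩
    · exact ⟨true, a _ _ ((h2 _ this.1).resolve_right this.2) k hk u⟩
  · exact ⟨0, fun k hk _ => ⟨false, by_contra fun v => e ⟨k, hk, v⟩⟩⟩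

theorem num {z : ℝ} (h : 2 ^ 20 ≤ z) :
    16 * (1 / z ^ 30) ^ 2 + 1 / z ^ 69 ≤ 1 / z ^ 35 ∧ 1 / z ^ 35 ≤ 1 / 8 ∧
    4 * (1 / z ^ 30) ^ 2 / (1 / z ^ 21) + 1 / z ^ 69 ≤ 1 / z ^ 35 ∧
    z ^ 3 * (1 / z ^ 35) + 1 / z ^ 69 ≤ 1 / z ^ 30 := by
  have p : 0 < z := by linarith
  have q : ∀ k, k ≠ 0 → 32 ≤ z ^ k := fun k hk => by linarith [le_self_pow₀ (by linarith : 1 ≤ z) hk]
  have r : ∀ a b : ℕ, a < b → 32 * z ^ a ≤ z ^ b := fun a b e => by
    rw [← Nat.add_sub_cancel' e.le, pow_add, mul_comm]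
    exact mul_le_mul_of_nonneg_left (q _ (by omega)) (by positivity)
  refine ⟨?_, one_div_le_one_div_of_le (by norm_num) (by linarith [q 35 (by omega)]), ?_, ?_⟩ <;>
    field_simp
  · linarith [r 9 34 (by omega), q 9 (by omega)]
  · linarith [r 30 34 (by omega), q 30 (by omega)]
  · linarith [r 37 39 (by omega), q 37 (by omega)]

end Kc

open Kc in
theorem kcS {y m w : ℕ} {E Idx : Type} [Field E] [Finite E] [AddCommGroup Idx] [Finite Idx]
    (H : Hyp y m w E Idx) (Cx : Type) (hT : ThrS) (hS : SelS) : KcS y m Idx Cx E := by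
  intro U Ver _ ver hV
  have hy := H.hy
  have hz : (2 : ℝ) ^ 20 ≤ y := by exact_mod_cast hy
  obtain ⟨n1, n2, n3, n4⟩ := num hz
  obtain ⟨γ, hγ⟩ := H.s2 (U × (Fin m → E) × (Fin m → E))
    (fun g => Prod.ext (Subtype.ext (H.two _))
      (Prod.ext (funext fun _ => H.ch2 _) (funext fun _ => H.ch2 _)))
    (Nat.card_le_card_of_injective (Prod.map Subtype.val id)
      (Subtype.val_injective.prodMap fun _ _ e => e))
  have T := thr hT Cx (by positivity) hγ
  let ix := Finite.equivFin Ver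
  have R := ((T (1 - 1 / (y : ℝ) ^ 21 / 2) false).comp
    ((Real.iterAll (In := Empty) (Nat.card Ver) fun _ _ => (Real.par fun b : Bool =>
      (T (bif b then 3 / 4 else 1 / 4) b).ren (In' := Empty ⊕ Bool × Unit)
        fun _ => .inr (false, ()))).ren (In' := Unit) fun _ => ())).comp
    (hS _ _ Ver _ (fun ν => ((ix ν : ℕ) + 1, true, ())) (fun _ => 1) (fun _ => false)
      fun c => ver c.2.1)
  refine R.mono ?_ ?_
  · have a : y ^ 62 + 2 ≤ y ^ 63 := by
      have := Nat.one_le_pow 62 y (by omega)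
      rw [pow_succ]; nlinarith
    have b := (Nat.pow_le_pow_left a 2).trans_eq (pow_mul _ _ _).symm
    have c : y ^ 3 ≤ y ^ 129 := Nat.pow_le_pow_right (by omega) (by omega)
    have d : y ^ (63 * 2) ≤ y ^ 129 := Nat.pow_le_pow_right (by omega) (by omega)
    have e : _ ≤ y ^ 129 := (Nat.mul_le_mul hV b).trans_eq (pow_add _ _ _).symm
    have f := Nat.one_le_pow 129 y (by omega)
    have g := Nat.mul_le_mul_left (y ^ 129) hy
    rw [Nat.card_eq_fintype_card (α := Bool), Fintype.card_bool, pow_succ y 129, ← mul_assoc 2,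
      mul_left_comm (Nat.card Ver)]
    clear R T
    omega
  rintro _ x o F ⟨v, ⟨c, h0, h1, h2⟩, h3⟩ j hF
  unfold e0 at hF
  have f0 := flt_nonneg U j F
  obtain ⟨k1, i, k2⟩ := one (N := Nat.card Ver)
    (C := fun i b => ob U j (fun l => v (i, false, ()) l ≠ ofB b) ≤ 1 / (y : ℝ) ^ 35)
    (L := fun i b => ob U j (fun l => v (i + 1, true, ()) l ≠ ofB b) ≤ 1 / (y : ℝ) ^ 35)
    (fun i hi b k => ⟨(h2 i hi false).cl (by linarith) (by norm_num) (by norm_num) n2 k,
      (h2 i hi true).cl (by linarith) (by norm_num) (by norm_num) n2 k⟩)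
    fun i hi => alt (h2 i hi false) (h2 i hi true) (by linarith)
  have hN : (Nat.card Ver : ℝ) ≤ (y : ℝ) ^ 3 := by exact_mod_cast hV
  have p35 : (0 : ℝ) ≤ 1 / (y : ℝ) ^ 35 := by positivity
  have all : ∀ b, ob U j (fun l => c () l ≠ ofB b) ≤ 1 / (y : ℝ) ^ 35 →
      ob U j (fun l => o () l ≠ ofB b) ≤ 1 / (y : ℝ) ^ 30 := fun b k => by
    have e := pr_exists_le' fun ν : Ver =>
      k1 0 b (by rwa [show v (0, false, ()) = c () from congrFun h1 _]) _ (ix ν).2 (Nat.zero_le _)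
    refine (pr_le_add fun q hq => ?_).trans ((add_le_add e hF).trans ?_)
    · by_contra u
      rw [not_or, not_exists] at u
      exact hq (h3 _ u.2 b (by rw [← rd_ofB false b]; exact congrArg _ (not_not.1 (u.1 _))))
    · linarith [mul_le_mul_of_nonneg_right hN p35]
  have z := h0.zero (j := j) (by positivity)
  refine ⟨⟨if h : i < Nat.card Ver then ix.symm ⟨i, h⟩ else ver j, fun ν ne => ?_⟩,
    fun k => all _ ((z.1 k).trans (by linarith)),
    fun k => all _ ((z.2 (by rwa [div_div, mul_comm])).trans (by linarith))⟩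
  obtain ⟨b, k⟩ := k2 _ (ix ν).2 fun e => ne (by subst e; simp)
  refine ⟨b, (ob_le_add (B' := fun l => v (ix ν + 1, true, ()) l ≠ ofB b) (B'' := (· ∈ F))
    fun _ _ _ hq => ?_).trans ((add_le_add k hF).trans ?_)⟩
  · by_contra u
    rw [not_or, ← hq.1] at u
    exact hq.2 (h3 _ u.2 b (by rw [← rd_ofB false b]; exact congrArg _ (not_not.1 u.1)))
  · nlinarith [one_le_pow₀ (n := 3) (show (1 : ℝ) ≤ y by linarith)]

end Pool.Agent.PP
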