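import Pool.Agent.MP_13199e_lc.PP.C.Spec

/-! PROJECT PP, row LD. -/

set_option autoImplicit false

namespace Pool.Agent.PP

open Function Polynomial

namespace LdA

variable {E : Type} [Field E] {m : ℕ}

theorem z2 : ∀ a : ZMod 2, a = 0 ∨ a = 1 := by decide

theorem cube (o : Bv m → E) (c : Bv m) : mle o (cub c) = o c := by
  rw [mle, Finset.sum_eq_single c (fun b _ hb => ?_) (by simp), Finset.prod_eq_one fun i _ => ?_,
    one_mul]
  · by_cases h : c i = 0 <;> simp [cub, bit, h]
  · obtain ⟨i, hi⟩ := ne_iff.1 hb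
    rw [Finset.prod_eq_zero (Finset.mem_univ i), zero_mul]
    rcases z2 (b i) with h | h <;> rcases z2 (c i) with k | k <;> simp_all [cub, bit]

theorem node [Finite E] (d : ℕ) (h : d + 1 < Nat.card E) :
    ∃ (t : Fin (d + 1) → E) (c : E → Fin (d + 1) → E), (∀ i, t i ≠ 0) ∧ ∀ W : E → E,
      (∃ p : E[X], p.natDegree ≤ d ∧ ∀ s, W s = p.eval s) ↔ ∀ s, W s = ∑ i, c s i * W (t i) := by
  classical
  have := Fintype.ofFinite E
  obtain ⟨u⟩ : Nonempty (Fin (d + 1) ↪ Eˣ) := Embedding.nonempty_of_card_le (by
    rw [Fintype.card_units, Fintype.card_fin, ← Nat.card_eq_fintype_card]; omega)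
  have hi : Set.InjOn (fun i => (u i : E)) (Finset.univ : Finset (Fin (d + 1))) :=
    (Units.val_injective.comp u.injective).injOn
  have e : ∀ (r : Fin (d + 1) → E) s, (Lagrange.interpolate Finset.univ (fun i => (u i : E)) r).eval s
      = ∑ i, (Lagrange.basis Finset.univ (fun i => (u i : E)) i).eval s * r i := fun r s => by
    simp [Lagrange.interpolate_apply, eval_finsetSum, mul_comm]
  refine ⟨fun i => u i, fun s i => (Lagrange.basis Finset.univ (fun i => (u i : E)) i).eval s,
    fun i => (u i).ne_zero, fun W => ⟨fun ⟨p, h1, h2⟩ s => ?_, fun k => ⟨_,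
      natDegree_le_of_degree_le ?_, fun s => (k s).trans (e _ s).symm⟩⟩⟩
  · simp only [h2]
    rw [← e, ← Lagrange.eq_interpolate hi]
    simpa using degree_le_natDegree.trans_lt (Nat.cast_lt.2 (Nat.lt_succ_of_le h1))
  · simpa using Lagrange.degree_interpolate_le (fun i => W (u i)) hi

theorem uniq [Finite E] {d : ℕ} {f g : (Fin m → E) → E} (h : d + 1 < Nat.card E) (hf : Ld d f)
    (hg : Ld d g) (k : pr (fun x => f x ≠ g x) < 1 / (d + 1)) : f = g := by
  obtain ⟨t, c, h1, h2⟩ := node d h
  funext x
  by_contra hx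
  have h3 : ∀ ρ, ∃ i, f (x + t i • ρ) ≠ g (x + t i • ρ) := fun ρ => by
    by_contra hn
    push Not at hn
    have := (h2 _).1 (hf.sub hg x ρ) 0
    simp only [hn, sub_self, mul_zero, Finset.sum_const_zero, zero_smul, add_zero] at this
    exact hx (sub_eq_zero.1 this)
  have h4 := pr_exists_le' (p := fun i ρ => f (x + t i • ρ) ≠ g (x + t i • ρ)) fun i =>
    (pr_bij ((Equiv.addLeft x).bijective.comp (MulAction.bijective (Units.mk0 _ (h1 i))))
      fun x => f x ≠ g x).le
  rw [pr_of_all h3, Nat.card_fin, Nat.cast_succ, mul_comm] at h4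
  exact h4.not_gt ((lt_div_iff₀ (by positivity)).1 k)

theorem mls_mls (i j : Fin m) {g : (Fin m → E) → E} (h : j = i ∨ mls j g = g) :
    mls j (mls i g) = mls i g := by
  funext x
  by_cases e : j = i
  · simp [e, mls]
  · have k := congrFun (h.resolve_left e)
    simp only [mls] at k ⊢
    rw [← k (update x i 0), ← k (update x i 1)]
    simp only [update_comm e, update_of_ne e, update_of_ne (Ne.symm e)]
    ring

theorem mls_cub (i : Fin m) (g : (Fin m → E) → E) (c : Bv m) : mls i g (cub c) = g (cub c) := by
  by_cases h : c i ≠ 0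
  · have e : (cub c : Fin m → E) i = 1 := bit_pos h
    rw [mls, ← e, update_eq_self, e]
    simp
  · have e : (cub c : Fin m → E) i = 0 := bit_neg h
    rw [mls, ← e, update_eq_self, e]
    simp

theorem mls_mle (i : Fin m) (o : Bv m → E) : mls i (mle o) = mle o := by
  funext x
  have e : ∀ a, mle o (update x i a) = ∑ c : Bv m, ((if c i = 0 then 1 - a else a) *
      ∏ j ∈ Finset.univ \ {i}, if c j = 0 then 1 - x j else x j) * o c := fun a =>
    Finset.sum_congr rfl fun c _ => by
      rw [← Finset.prod_update_of_mem (Finset.mem_univ i)]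
      exact congrArg (· * _) (Finset.prod_congr rfl fun j _ =>
        apply_update (fun j (a : E) => if c j = 0 then 1 - a else a) x i a j)
  rw [mls, e, e, ← congrArg (mle o) (update_eq_self i x), e, Finset.mul_sum, Finset.mul_sum,
    ← Finset.sum_add_distrib]
  exact Finset.sum_congr rfl fun c _ => by split_ifs <;> ring

theorem ext {f g : (Fin m → E) → E} (hf : ∀ i, mls i f = f) (hg : ∀ i, mls i g = g)
    (h : ∀ c, f (cub c) = g (cub c)) : f = g := by
  classical
  have k : ∀ (s : Finset (Fin m)) x, (∀ i ∉ s, x i = 0 ∨ x i = 1) → f x = g x := fun s => by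
    induction s using Finset.induction_on with
    | empty =>
      intro x hx
      have e : x = cub fun i => if x i = 0 then 0 else 1 := funext fun i => by
        rcases hx i (by simp) with k | k <;> simp [cub, bit, k]
      rw [e, h]
    | insert i s _ ih =>
      intro x hx
      have u : ∀ a, a = 0 ∨ a = 1 → f (update x i a) = g (update x i a) := fun a ha =>
        ih _ fun j hj => by
          by_cases e : j = i
          · simpa [e] using ha
          · simpa [e] using hx j (by simp [e, hj])
      rw [← hf i, ← hg i, mls, mls, u 0 (.inl rfl), u 1 (.inr rfl)]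
  exact funext fun x => k Finset.univ x (by simp)

theorem fold (l : List (Fin m)) : ∀ f : (Fin m → E) → E,
    (∀ i, i ∈ l ∨ mls i f = f → mls i (l.foldl (fun g i => mls i g) f) =
      l.foldl (fun g i => mls i g) f) ∧
      ∀ c, l.foldl (fun g i => mls i g) f (cub c) = f (cub c) := by
  induction l with
  | nil => exact fun f => ⟨fun i h => h.resolve_left (by simp), fun _ => rfl⟩
  | cons j l ih =>
    refine fun f => ⟨fun i h => (ih (mls j f)).1 i ?_,
      fun c => ((ih (mls j f)).2 c).trans (mls_cub j f c)⟩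
    rcases h with h | h
    · exact (List.mem_cons.1 h).symm.imp_right fun e => mls_mls j i (.inl e)
    · exact .inr (mls_mls j i (.inr h))

theorem bit_add (h : ∀ a : E, a + a = 0) (a b : ZMod 2) :
    (bit (a + b ≠ 0) : E) = bit (a ≠ 0) + bit (b ≠ 0) := by
  have : (1 + 1 : ZMod 2) = 0 := rfl
  rcases z2 a with rfl | rfl <;> rcases z2 b with rfl | rfl <;> simp [bit, h, this]

theorem lin (h : ∀ a : E, a + a = 0) {V : Type} [AddCommGroup V] [Module E V] (L : Bv m →+ V) :
    ∃ L' : (Fin m → E) →ₗ[E] V, ∀ c, L' (cub c) = L c := by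
  refine ⟨Fintype.linearCombination E fun i => L (Pi.single i 1), DFunLike.congr_fun
    (AddMonoidHom.functions_ext _ ((Fintype.linearCombination E fun i =>
      L (Pi.single i 1)).toAddMonoidHom.comp (AddMonoidHom.mk' cub fun a b =>
        funext fun i => bit_add h (a i) (b i))) L fun i a => ?_)⟩
  rcases z2 a with rfl | rfl
  · simp only [Pi.single_zero, map_zero]
  · have e : (cub (Pi.single i 1) : Fin m → E) = Pi.single i 1 := funext fun j => by
      by_cases k : j = i <;> simp [cub, bit, k]
    simp [e, Fintype.linearCombination_apply_single]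

end LdA

open LdA in
theorem ldS : LdS := fun _ _ _ _ h =>
  ⟨cube, uniq, node, fun f => ext (fun i => (fold _ f).1 i (.inl (List.mem_finRange i)))
    (fun i => mls_mle i _) fun c => ((fold _ f).2 c).trans (cube (fun c => f (cub c)) c).symm,
    fun a b => funext fun i => bit_add h (a i) (b i),
    fun A => lin h ((AddMonoidHom.mk' cub fun a b =>
      funext fun i => bit_add h (a i) (b i)).comp A),
    fun l => lin h ((AddMonoidHom.mk' (fun a => bit (a ≠ 0)) (bit_add h)).comp l)⟩

end Pool.Agent.PP
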