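import Pool.Agent.MP_13199e_lc.PP.C.OpA

/-! PROJECT PP, row OP: one operation with self-correction. -/

set_option autoImplicit false

namespace Pool.Agent.PP

namespace Op

theorem cost {y n w S : ℕ} (hy : 2 ^ 20 ≤ y) (hn : n ≤ y ^ 2) (hw : w ≤ y) (hS : S ≤ y ^ 72) :
    n * (w * (3 * (y ^ 62 + 2) ^ 2)) + n * (10 * (dd y + 1 + w + 1) * (y ^ 6) ^ 2 * (y ^ 6) ^ 2) +
      10 * (n + w + 1) * S ^ 2 * (y ^ 6) ^ 2 + w * (3 * (y ^ 62 + 2) ^ 2) ≤ y ^ 160 := by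
  have p : ∀ {a b}, a ≤ b → y ^ a ≤ y ^ b := fun h => Nat.pow_le_pow_right (by omega) h
  have q : ∀ a b, b = a + 1 → 30 * y ^ a ≤ y ^ b := fun a b e => by
    rw [e, pow_succ, mul_comm]; exact Nat.mul_le_mul_left _ (by omega)
  have y1 : y ≤ y ^ 2 := Nat.le_self_pow (by omega) y
  have h1 : y ^ 62 + 2 ≤ y ^ 63 := by have := q 62 63 rfl; have := p (show 2 ≤ 62 by omega); omega
  have h2 : w * (3 * (y ^ 62 + 2) ^ 2) ≤ y ^ 128 :=
    (Nat.mul_le_mul hw (Nat.mul_le_mul (show 3 ≤ y by omega) (Nat.pow_le_pow_left h1 2))).trans_eq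
      (by ring)
  have h3 : 10 * (dd y + 1 + w + 1) ≤ y ^ 7 := by
    have := q 6 7 rfl; have := p (show 2 ≤ 6 by omega); unfold dd; omega
  have h4 : 10 * (n + w + 1) ≤ y ^ 3 := by have := q 2 3 rfl; omega
  have k1 := (Nat.mul_le_mul hn h2).trans (((pow_add y 2 128).ge).trans (p (b := 159) (by omega)))
  have k2 : n * (10 * (dd y + 1 + w + 1) * (y ^ 6) ^ 2 * (y ^ 6) ^ 2) ≤ y ^ 159 :=
    (Nat.mul_le_mul hn (Nat.mul_le_mul_right _ (Nat.mul_le_mul_right _ h3))).trans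
      ((show _ = y ^ 33 by ring).trans_le (p (by omega)))
  have k3 : 10 * (n + w + 1) * S ^ 2 * (y ^ 6) ^ 2 ≤ y ^ 159 :=
    (Nat.mul_le_mul_right _ (Nat.mul_le_mul h4 (Nat.pow_le_pow_left hS 2))).trans_eq (by ring)
  have k4 := h2.trans (p (b := 159) (by omega))
  have := q 159 160 rfl
  omega

theorem num {y k η φ : ℝ} (hy : 2 ^ 20 ≤ y) (hk : k ≤ y ^ 8) (h0 : 0 ≤ η) (hφ : 0 ≤ φ) :
    16 * (1 / y ^ 30) ^ 2 ≤ 1 ∧ (η ≤ 1 / y ^ 9 → k * η ≤ 1 / 32) ∧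
      208 * k * (1 / y ^ 30) ^ 2 * η + (9 * k + 10) * φ ≤ η / y ^ 51 + y ^ 9 * φ := by
  have y0 : 0 < y := by linarith
  have y1 : y ≤ y ^ 30 := le_self_pow₀ (by linarith) (by omega)
  have y2 : 1 ≤ y ^ 8 := one_le_pow₀ (by linarith)
  refine ⟨?_, fun h => ?_, add_le_add ?_ (mul_le_mul_of_nonneg_right ?_ hφ)⟩
  · rw [div_pow, mul_div_assoc', div_le_one (by positivity)]; nlinarith
  · calc k * η ≤ y ^ 8 * (1 / y ^ 9) := mul_le_mul hk h h0 (by positivity)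
      _ = 1 / y := by field_simp
      _ ≤ 1 / 32 := one_div_le_one_div_of_le (by norm_num) (by linarith)
  · calc _ ≤ y * y ^ 8 * (1 / y ^ 30) ^ 2 * η := by
          gcongr ?_ * _ * _; nlinarith
      _ = η / y ^ 51 := by field_simp
  · rw [pow_succ y 8]; nlinarith

end Op

open Op

theorem opS {y m w : ℕ} {E Idx : Type} [Field E] [Finite E] [AddCommGroup Idx] [Finite Idx]
    (enc : E ≃ (Fin w → Bool)) (Cx : Type) (H : Hyp y m w E Idx) (hM : MajS) (hS : SymS) :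
    OpS enc y m Idx Cx := by
  intro U ι _ γ α Ψ hn hα hΨ ⟨St, _, _, gs, out, hSt, hs⟩
  have hy := H.hy
  have y6 : y ≤ y ^ 6 := Nat.le_self_pow (by omega) y
  obtain ⟨t, c, ht, hc⟩ := H.ld.node (dd y) (by rw [H.cE]; unfold dd; omega)
  obtain ⟨s, hsm⟩ := H.s2 (U × (Fin m → E))
    (fun g => Prod.ext (Subtype.ext (H.two _)) (funext fun _ => H.ch2 _))
    (Nat.card_le_card_of_injective (fun g => ((g.1, 0, g.2) : Lb Idx E m)) fun a b e => by
      simpa [Prod.ext_iff] using e)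
  have : Nonempty (Fin (y ^ 62)) := ⟨⟨0, by positivity⟩⟩
  have r1 := Real.par fun i : ι => (hM _ E _ w enc (locS Cx (Lb Idx E m))
    fun a => sh (γ i) (s a)).ren (In' := ι × Fin w) fun b => (i, b)
  have r2 := Real.par fun i : ι => hS _ E ι (Fin w) (Fin (dd y + 1)) E w enc
    (locS Cx (Lb Idx E m)) (fun _ => i) (fun k => ln (fun j => α j i) (ht k))
    (fun _ k v => c 0 k * v) fun _ a b => enc a b
  have r3 := hS _ E ι (Fin w) ι St w enc (locS Cx (Lb Idx E m)) id (fun _ => 1)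
    (fun a => gs (a.1, a.2.1, a.2.2.1)) fun a z b => enc (out (a.1, a.2.1, a.2.2.1) z) b
  have r4 := hM _ E _ w enc (locS Cx (Lb Idx E m)) fun a => sh 0 (s a)
  refine (((r1.comp r2).comp r3).comp r4).mono ?_ ?_
  · simp only [Nat.card_fin, H.cE]
    exact cost hy (Nat.card_eq_fintype_card (α := ι) ▸ hn) H.hw hSt
  rintro e x o F ⟨L, ⟨I, ⟨C, h1, h2⟩, h3⟩, h4⟩ j g η h0 hη hg
  have k : (Nat.card (ι × Fin (dd y + 1)) : ℝ) ≤ (y : ℝ) ^ 8 := by
    rw [Nat.card_prod, Nat.card_fin]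
    exact_mod_cast (Nat.mul_le_mul hn (show dd y + 1 ≤ y ^ 6 by unfold dd; omega)).trans_eq
      (by ring)
  obtain ⟨n1, n2, n3⟩ := num (by exact_mod_cast hy) k h0 (flt_nonneg U j F)
  refine (core (κ := ι × Fin (dd y + 1)) (W := fun k => wd x k.1) (C := fun k => wd C k.1)
    (γ := fun k => γ k.1) (g := fun k => g k.1) (α := fun k j => α j k.1) (t := fun k => t k.2)
    hsm n1 (n2 hη) (fun k => ht k.2) (fun k => (hg k.1).2) (fun k => h1 k.1)
    (fun u hu p r hF hC => ?_) h4).trans n3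
  have a1 : ∀ i, Is enc (wd I i) (j + u, p, r) (g i (α j i p)) := fun i b => by
    have e1 := (hc fun z => g i (α j i p + z • r)).1 ((hg i).1 _ _) 0
    rw [zero_smul, add_zero] at e1
    rw [e1]
    refine h2 i _ hF (fun k => g i (α j i p + t k • r)) (fun k => ?_) b
    have := hC (i, k)
    rwa [← hα j u hu] at this ⊢
  intro b
  rw [show Ψ (e, j, p) = Ψ (e, j + u, p) from (hΨ e p j u hu).symm, hs]
  exact h3 _ hF _ a1 b

end Pool.Agent.PP
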