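import Pool.Agent.MP_13199e_lc.PP.C.Spec

/-! PROJECT PP, row OP: local errors and the copy majority. -/

set_option autoImplicit false
set_option linter.unusedSectionVars false

namespace Pool.Agent.PP

namespace Op

open Function

variable {E Idx Cx : Type} [Field E] [Finite E] [AddCommGroup Idx] [Finite Idx] {m w : ℕ}
  {enc : E ≃ (Fin w → Bool)} {U : AddSubgroup Idx} {σ : Type} [Finite σ] [Nonempty σ]

/-- The density of `B` at the point `x` of an object. -/
noncomputable def lc (U : AddSubgroup Idx) (j : Idx) (B : Lb Idx E m → Prop) (x : Fin m → E) : ℝ :=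
  pr fun q : U × (Fin m → E) => B (j + q.1, x, q.2)

theorem av_lc (j : Idx) (B : Lb Idx E m → Prop) : av (lc U j B) = ob U j B := by
  unfold ob lc
  simp only [pr_prod]
  exact av_comm _

theorem lc_nonneg (j : Idx) (B : Lb Idx E m → Prop) (x : Fin m → E) : 0 ≤ lc U j B x := pr_nonneg _

/-- The wires of the copy majority. -/
def sh (γ : Idx) (a : U × (Fin m → E)) : Equiv.Perm (Lb Idx E m) := Equiv.addRight (γ + a.1, 0, a.2)

/-- The wires along a line. -/
def ln (α : Idx → (Fin m → E) → Fin m → E) {t : E} (ht : t ≠ 0) : Equiv.Perm (Lb Idx E m) where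
  toFun l := (l.1, α l.1 l.2.1 + t • l.2.2, l.2.1)
  invFun l := (l.1, l.2.2, t⁻¹ • (l.2.1 - α l.1 l.2.2))
  left_inv l := by simp [smul_smul, ht]
  right_inv l := by simp [smul_smul, ht]

theorem cm {s : σ → U × (Fin m → E)} {lam : ℝ} (hs : Smp s lam) {W O : Fin w → Lb Idx E m → V4}
    {F : Set (Lb Idx E m)} {γ : Idx}
    (h : ∀ p ∉ F, ∀ a, 1 / 2 < pr (fun i => Is enc W (sh γ (s i) p) a) → Is enc O p a)
    (j : Idx) (G : (Fin m → E) → E) (x : Fin m → E)
    (hx : lc U (j + γ) (fun l => ¬Is enc W l (G l.2.1)) x ≤ 1 / 4) :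
    lc U j (fun l => ¬Is enc O l (G l.2.1)) x ≤
      16 * lam ^ 2 * lc U (j + γ) (fun l => ¬Is enc W l (G l.2.1)) x + lc U j (· ∈ F) x := by
  have k := hs.up hx (show (0 : ℝ) < 1 / 4 by norm_num)
  refine (pr_le_add fun q hq => ?_).trans (add_le_add (k.trans_eq (by unfold lc; ring)) le_rfl)
  refine or_iff_not_imp_right.2 fun hF => ?_
  have := not_lt.1 (mt (h _ hF _) hq)
  have e : ∀ i, sh γ (s i) (j + q.1, x, q.2) = (j + γ + (q + s i).1, x, (q + s i).2) := fun i => by
    simp [sh]; abel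
  simp only [e] at this
  rw [pr_not]
  linarith

/-- The errors of a copy majority outside the heavy points. -/
theorem cm_light {s : σ → U × (Fin m → E)} {lam : ℝ} (hs : Smp s lam)
    {W O : Fin w → Lb Idx E m → V4} {F : Set (Lb Idx E m)} {γ : Idx}
    (h : ∀ p ∉ F, ∀ a, 1 / 2 < pr (fun i => Is enc W (sh γ (s i) p) a) → Is enc O p a)
    (j : Idx) (G : (Fin m → E) → E) (B : (Fin m → E) → Prop)
    (hB : ∀ x, ¬B x → lc U (j + γ) (fun l => ¬Is enc W l (G l.2.1)) x ≤ 1 / 4) :
    ob U j (fun l => ¬B l.2.1 ∧ ¬Is enc O l (G l.2.1)) ≤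
      16 * lam ^ 2 * err enc W U (j + γ) G + flt U j F := by
  rw [err, flt, ← av_lc, ← av_lc, ← av_lc, ← av_mul, ← av_add]
  refine av_mono fun x => ?_
  by_cases u : B x
  · exact (pr_of_not fun q k => k.1 u).trans_le (add_nonneg (mul_nonneg (by positivity)
      (lc_nonneg _ _ _)) (lc_nonneg _ _ _))
  · exact (pr_mono fun q k => k.2).trans (cm hs h j G x (hB x u))

theorem ob_pt (j : Idx) (B : (Fin m → E) → Prop) :
    ob U j (fun l : Lb Idx E m => B l.2.1) = pr B :=
  (pr_snd fun z : (Fin m → E) × (Fin m → E) => B z.1).trans (pr_fst B)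

theorem ob_ln (α : Idx → (Fin m → E) → Fin m → E) {t : E} (ht : t ≠ 0) (j : Idx)
    (B : Lb Idx E m → Prop) :
    ob U j (fun l : Lb Idx E m => B (l.1, α j l.2.1 + t • l.2.2, l.2.1)) = ob U j B := by
  unfold ob
  simp only [pr_prod (α := U)]
  refine av_congr fun u => pr_bij (e := fun z : (Fin m → E) × (Fin m → E) =>
    (α j z.1 + t • z.2, z.1)) (Finite.injective_iff_bijective.1 fun a b e => ?_)
      fun z => B (j + u, z)
  have e1 : a.1 = b.1 := congrArg Prod.snd e
  have e2 : α j a.1 + t • a.2 = α j b.1 + t • b.2 := congrArg Prod.fst e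
  rw [e1] at e2
  exact Prod.ext e1 (smul_right_injective _ ht (add_left_cancel e2))

theorem lc_ln (a : Fin m → E) {t : E} (ht : t ≠ 0) (B : (Fin m → E) → Prop) :
    pr (fun q : U × (Fin m → E) => B (a + t • q.2)) = pr B :=
  (pr_snd fun r => B (a + t • r)).trans (pr_bij (Finite.injective_iff_bijective.1
    fun _ _ e => smul_right_injective _ ht (add_left_cancel e)) B)

/-- The analysis of one operation. -/
theorem core {κ : Type} [Finite κ] {s : σ → U × (Fin m → E)} {lam η : ℝ} (hs : Smp s lam)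
    (hl : 16 * lam ^ 2 ≤ 1) (hη : Nat.card κ * η ≤ 1 / 32) {j : Idx}
    {W C : κ → Fin w → Lb Idx E m → V4} {L O : Fin w → Lb Idx E m → V4} {F : Set (Lb Idx E m)}
    {γ : κ → Idx} {g : κ → (Fin m → E) → E} {G : (Fin m → E) → E}
    {α : κ → Idx → (Fin m → E) → Fin m → E} {t : κ → E} (ht : ∀ k, t k ≠ 0)
    (hW : ∀ k, err enc (W k) U (j + γ k) (g k) ≤ η)
    (hC : ∀ k, ∀ p ∉ F, ∀ a, 1 / 2 < pr (fun i => Is enc (W k) (sh (γ k) (s i) p) a) →
      Is enc (C k) p a)
    (hL : ∀ u ∈ U, ∀ x r, (j + u, x, r) ∉ F → (∀ k, Is enc (C k) (j + u, α k j x + t k • r, x)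
      (g k (α k j x + t k • r))) → Is enc L (j + u, x, r) (G x))
    (hO : ∀ p ∉ F, ∀ a, 1 / 2 < pr (fun i => Is enc L (sh 0 (s i) p) a) → Is enc O p a) :
    err enc O U j G ≤ 208 * Nat.card κ * lam ^ 2 * η + (9 * Nat.card κ + 10) * flt U j F := by
  have := Fintype.ofFinite κ
  let B : κ → (Fin m → E) → Prop := fun k x =>
    1 / 4 ≤ lc U (j + γ k) (fun l => ¬Is enc (W k) l (g k l.2.1)) x
  let D : κ → Lb Idx E m → Prop := fun k l => ¬B k l.2.1 ∧ ¬Is enc (C k) l (g k l.2.1)
  have b1 : ∀ k, pr (B k) ≤ 4 * η := fun k =>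
    (markov (lc_nonneg _ _) (by norm_num)).trans (by have := hW k; rw [av_lc]; unfold err at this; linarith)
  have b2 : ∀ k, ob U j (D k) ≤ 16 * lam ^ 2 * η + flt U j F := fun k =>
    (cm_light hs (hC k) j (g k) (B k) fun x u => (not_le.1 u).le).trans
      (add_le_add (mul_le_mul_of_nonneg_left (hW k) (by positivity)) le_rfl)
  let A : Lb Idx E m → Prop := fun l => l ∈ F ∨ ∃ k, D k (l.1, α k j l.2.1 + t k • l.2.2, l.2.1)
  have b3 : ob U j A ≤ flt U j F + Nat.card κ * (16 * lam ^ 2 * η + flt U j F) :=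
    (pr_or _ _).trans (add_le_add le_rfl (pr_exists_le' fun k =>
      (ob_ln (α k) (ht k) j (D k)).trans_le (b2 k)))
  have b4 : ∀ x, lc U (j + 0) (fun l => ¬Is enc L l (G l.2.1)) x ≤
      Nat.card κ * (4 * η) + lc U j A x := fun x => by
    rw [add_zero]
    have k := pr_exists_le' fun k => (lc_ln (U := U) (α k j x) (ht k) (B k)).trans_le (b1 k)
    refine (pr_le_add fun q hq => ?_).trans (add_le_add k le_rfl)
    by_contra n
    simp only [A, D, not_or, not_exists, not_and, not_not] at n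
    exact hq (hL _ q.1.2 _ _ n.2.1 fun k => n.2.2 k (n.1 k))
  have b5 : err enc L U (j + 0) G ≤ Nat.card κ * (4 * η) + ob U j A := by
    rw [err, ← av_lc, ← av_lc, ← av_const (α := Fin m → E) (Nat.card κ * (4 * η)), ← av_add]
    exact av_mono b4
  have b6 := cm_light hs hO j G (fun x => 1 / 8 ≤ lc U j A x) fun x u => (b4 x).trans (by linarith)
  have b7 := markov (lc_nonneg (U := U) j A) (show (0 : ℝ) < 1 / 8 by norm_num)
  rw [av_lc, ← ob_pt (U := U) j] at b7
  have b8 : err enc O U j G ≤ _ := (ob_le_add fun u _ z k => (em _).imp_right fun n => ⟨n, k⟩).trans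
    (add_le_add b7 b6)
  have b9 := mul_le_mul_of_nonneg_left b5 (show 0 ≤ 16 * lam ^ 2 by positivity)
  have c1 := mul_le_mul_of_nonneg_right hl (ob_nonneg U j A)
  linarith

end Op

end Pool.Agent.PP
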