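import Pool.Agent.MP_13199e_lc.PP.C.Spec

/-! PROJECT PP, block C: the local test. -/

set_option autoImplicit false
set_option linter.unusedSectionVars false

namespace Pool.Agent.PP

open Function Polynomial

namespace Pas

variable {E Idx : Type} [Field E] [Finite E] [AddCommGroup Idx] [Finite Idx] {m w : ℕ}

open Classical in
/-- Linear checks on pure reads, followed by a conjunction. -/
theorem test (hT : ThrS) (hS : SymS) {Ctx κ ι : Type} [Finite κ] [Fintype ι] (S : Stg Ctx)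
    (enc : E ≃ (Fin w → Bool)) (wr : κ → S.Wi) (ix : κ → ι → κ) (co : κ → ι → E) :
    Real S (Nat.card κ * (10 * (Nat.card ι + Nat.card Unit + 1) * Nat.card E ^ 2 * Nat.card E ^ 2) +
      3 * (Nat.card κ + 2) ^ 2) (In := Fin w) (Out := Unit) fun e x o F => ∀ p ∉ F, ∀ v : κ → E,
        (∀ k, Is enc x (S.rn e (wr k) p) (v k)) →
          ((∀ k, ∑ i, co k i * v (ix k i) = 0) → o () p = ofB true) ∧
          (¬(∀ k, ∑ i, co k i * v (ix k i) = 0) → o () p = ofB false) := by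
  refine (((Real.par fun k => hS Ctx E Unit Unit ι E w enc S (fun _ => ()) (fun i => wr (ix k i))
    (fun _ i a => co k i * a) fun _ a _ => decide (a = 0)).ren (In' := Fin w) Prod.snd).comp
    (hT Ctx (κ × Unit) κ S (fun k => (k, ())) (fun _ => S.i0) (fun _ => false)
      fun _ => Nat.card κ)).mono le_rfl ?_
  rintro e x o F ⟨z, h1, h2⟩ p hp v hv
  have h3 := fun k => h1 k p hp (fun i => v (ix k i)) (fun i => hv _) ()
  have h4 := h2 p hp
  simp only [S.rn0, h3, rd_ofB] at h4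
  refine ⟨fun a => h4.1 (Nat.card_congr (Equiv.subtypeUnivEquiv fun k => by simp [a k])).ge,
    fun a => h4.2 ?_⟩
  obtain ⟨k, hk⟩ := not_forall.1 a
  exact Finite.card_subtype_lt (x := k) (by simpa using hk)

open Classical in
/-- The read at the parameter `s` of a line. -/
noncomputable def ln (s : E) : Equiv.Perm ((Fin m → E) × (Fin m → E)) :=
  if h : s = 0 then 1 else
    ⟨fun q => (q.1 + s • q.2, q.1), fun q => (q.2, s⁻¹ • (q.1 - q.2)),
      fun q => by simp [smul_smul, h], fun q => by simp [smul_smul, h]⟩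

theorem ln_fst (s : E) (q : (Fin m → E) × (Fin m → E)) : (ln s q).1 = q.1 + s • q.2 := by
  unfold ln
  split_ifs with h
  exacts [by simp [h], rfl]

theorem ob_perm {Y : Type} {U : AddSubgroup Idx} (u : U) (e : Equiv.Perm Y) (j : Idx)
    (B : Idx × Y → Prop) : ob U j (fun l => B (l.1 + u, e l.2)) = ob U j B := by
  refine Eq.trans ?_ (pr_equiv ((Equiv.addRight u).prodCongr e) _)
  exact pr_congr fun q => by simp [add_assoc]

theorem ob_x {U : AddSubgroup Idx} (j : Idx) (B : Lb Idx E m → Prop) :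
    ob U j B = av fun x => pr fun q : U × (Fin m → E) => B (j + q.1, x, q.2) := by
  simp only [ob, pr_prod]
  exact av_comm _

theorem ob3 {Y : Type} [Finite Y] (U : AddSubgroup Idx) (j : Idx) (B B₁ B₂ B₃ : Idx × Y → Prop)
    (h : ∀ l, B l → ¬B₁ l → ¬B₂ l → B₃ l) : ob U j B ≤ ob U j B₁ + (ob U j B₂ + ob U j B₃) :=
  (pr_le_add fun _ k => or_iff_not_imp_left.2 fun k₁ => or_iff_not_imp_left.2 (h _ k k₁)).trans
    (add_le_add le_rfl (pr_or _ _))

theorem cost {y d : ℕ} (hy : 2 ^ 20 ≤ y) (hd : d ≤ y) :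
    (y ^ 6 + y ^ 2) * (10 * (d + 1 + 1 + 1 + 1) * (y ^ 6) ^ 2 * (y ^ 6) ^ 2) +
      3 * (y ^ 6 + y ^ 2 + 2) ^ 2 ≤ y ^ 40 := by
  have p : ∀ {a b}, a < b → 64 * y ^ a ≤ y ^ b := fun {a b} h =>
    (by rw [pow_succ']; gcongr; omega : _ ≤ y ^ (a + 1)).trans (Nat.pow_le_pow_right (by omega) h)
  have a2 := p (show 2 < 6 by omega)
  have a3 := p (show 1 < 2 by omega)
  have a4 := p (show 32 < 40 by omega)
  have a5 := p (show 12 < 40 by omega)
  rw [pow_one] at a3
  calc _ ≤ 2 * y ^ 6 * (y ^ 2 * (y ^ 6) ^ 2 * (y ^ 6) ^ 2) + 3 * (2 * y ^ 6) ^ 2 := by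
        gcongr <;> omega
    _ = 2 * y ^ 32 + 12 * y ^ 12 := by ring
    _ ≤ _ := by omega

end Pas

open Pas in
theorem pasS {y m w : ℕ} {E Idx : Type} [Field E] [Finite E] [AddCommGroup Idx] [Finite Idx]
    (enc : E ≃ (Fin w → Bool)) (Cx : Type) (H : Hyp y m w E Idx) (hT : ThrS) (hS : SymS)
    (hR : RsS) (hP : PluS) : PasS enc y m Idx Cx := by
  intro U d hd
  have hy := H.hy
  have h6 : y ^ 2 ≤ y ^ 6 := Nat.pow_le_pow_right (by omega) (by omega)
  have hE : d + 1 < Nat.card E := by rw [H.cE]; nlinarith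
  obtain ⟨t, c, -, hc⟩ := H.ld.node d hE
  obtain ⟨γ, hγ⟩ := H.s1 (U × (Fin m → E))
    (fun g => Prod.ext (Subtype.ext (H.two _)) (funext fun i => H.ch2 _))
    (Nat.card_le_card_of_injective (fun g => ((g.1 : Idx), (0 : Fin m → E), g.2)) fun a b h => by
      simpa [Prod.ext_iff] using h)
  let u : E ⊕ Fin (y ^ 2) → U := Sum.elim 0 fun σ => (γ σ).1
  let e : E ⊕ Fin (y ^ 2) → Equiv.Perm ((Fin m → E) × (Fin m → E)) :=
    Sum.elim ln fun σ => Equiv.addRight (0, (γ σ).2)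
  let ix : E ⊕ Fin (y ^ 2) → Option (Fin (d + 1)) → E ⊕ Fin (y ^ 2) :=
    Sum.elim (fun s i => .inl (i.elim s t)) fun σ i => i.elim (.inr σ) fun _ => .inl 0
  let co : E ⊕ Fin (y ^ 2) → Option (Fin (d + 1)) → E :=
    Sum.elim (fun s i => i.elim (-1) (c s)) fun _ i => i.elim (-1) (Pi.single 0 1)
  let Ok : (E ⊕ Fin (y ^ 2) → E) → Prop := fun v =>
    (∃ p : E[X], p.natDegree ≤ d ∧ ∀ s, v (.inl s) = p.eval s) ∧ ∀ σ, v (.inr σ) = v (.inl 0)
  have ok : ∀ v, (∀ k, ∑ i, co k i * v (ix k i) = 0) ↔ Ok v := fun v => by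
    simp only [Ok]
    rw [Sum.forall, hc fun s => v (.inl s)]
    simp [ix, co, Fintype.sum_option, neg_add_eq_zero, Pi.single_apply]
  refine (test hT hS (locS Cx (Lb Idx E m)) enc
    (fun k => (Equiv.addRight (u k : Idx)).prodCongr (e k)) ix co).mono
      (by simpa [H.cE] using cost hy hd) fun _ x o F h j hF => ?_
  simp only [ok] at h
  replace h : ∀ l ∉ F, ∀ v, (∀ k, Is enc x (l.1 + u k, e k l.2) (v k)) →
    (Ok v → o () l = ofB true) ∧ (¬Ok v → o () l = ofB false) := h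
  have un : ∀ (B : Lb Idx E m → Prop) (η : ℝ), ob U j B ≤ η →
      ob U j (fun l => ∃ k, B (l.1 + u k, e k l.2)) ≤ 2 * (y : ℝ) ^ 6 * η := fun B η hB =>
    (pr_exists_le' fun k => (ob_perm (u k) (e k) j B).trans_le hB).trans
      (mul_le_mul_of_nonneg_right (by
        rw [Nat.card_sum, H.cE, Nat.card_fin, two_mul]; exact_mod_cast Nat.add_le_add_left h6 _)
        ((ob_nonneg _ _ _).trans hB))
  have Y0 : (64 : ℝ) ≤ y := by exact_mod_cast (by omega : 64 ≤ y)
  obtain ⟨a, ha⟩ : ∃ a : ℝ, a = 1 / y := ⟨_, rfl⟩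
  have a0 : 0 ≤ a := by rw [ha]; positivity
  have a1 : y * a = 1 := by rw [ha]; field_simp
  have q : ∀ (r : ℝ) n, r / (y : ℝ) ^ n = r * a ^ n := fun r n => by rw [ha, one_div, inv_pow]; rfl
  have q1 : ∀ n k, k = n + 6 → (y : ℝ) ^ 6 * a ^ k = a ^ n := fun n k e => by
    rw [e, pow_add, mul_left_comm, ← mul_pow, a1, one_pow, mul_one]
  have q2 : ∀ {n k}, n < k → 64 * a ^ k ≤ a ^ n := fun {n k} hk =>
    (mul_le_mul_of_nonneg_left (pow_le_pow_of_le_one a0 (by nlinarith) hk) (by norm_num)).trans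
      (by rw [pow_succ]; nlinarith [mul_le_mul_of_nonneg_right Y0 a0, pow_nonneg a0 n])
  have b1 := q1 23 29 rfl
  have b2 := q2 (show 21 < 23 by omega)
  have b3 := q2 (show 21 < 69 by omega)
  have b4 := pow_nonneg a0 21
  rw [e0, q] at hF
  refine ⟨fun g hg he => ?_, fun np hf => ?_⟩
  · have := un _ _ he
    have := ob_le_add (U := U) (ι := j) (B := fun l => o () l ≠ ofB true) (B' := (· ∈ F))
      (B'' := fun l => ∃ k, ¬Is enc x (l.1 + u k, e k l.2) (g (e k l.2).1)) fun _ _ z n =>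
      by_contra fun n' => n ((h _ (fun a => n' (.inl a)) _ fun k => by_contra fun a =>
        n' (.inr ⟨k, a⟩)).1 ⟨by simpa [e, ln_fst] using hg z.1 z.2, fun σ => by simp [e, ln_fst]⟩)
    rw [← div_div, q] at *
    unfold flt at hF
    linarith
  obtain ⟨W, hW⟩ : ∃ W : Lb Idx E m → E, ∀ l, (∃ a, Is enc x l a) → Is enc x l (W l) :=
    ⟨fun l => Classical.epsilon (Is enc x l), fun l => Classical.epsilon_spec⟩
  have r1 : ob U j (fun l => ¬Ok fun k => W (l.1 + u k, e k l.2)) ≤ 2 * a ^ 21 := by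
    have := un _ _ np
    have := ob3 U j (fun l => ¬Ok fun k => W (l.1 + u k, e k l.2)) (· ∈ F)
      (fun l => ∃ k, ¬∃ a, Is enc x (l.1 + u k, e k l.2) a) (fun l => o () l = ofB false)
      fun l n n₁ n₂ => (h l n₁ _ fun k => hW _ (by_contra fun a => n₂ ⟨k, a⟩)).2 n
    rw [q] at *
    unfold flt at hF
    linarith
  have : Nonempty (Fin (y ^ 2)) := ⟨⟨0, by positivity⟩⟩
  choose V hV using fun z => hP _ _ E γ _ (fun g => W (j + g.1, z, g.2)) (by norm_num)
    (by norm_num) hγ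
  have r2 : ob U j (fun l => W l ≠ V l.2.1) ≤ 4 * a ^ 21 := by
    rw [ob_x] at r1 ⊢
    refine ((av_mono fun z => (hV z).trans (mul_le_mul_of_nonneg_left (pr_mono ?_)
      zero_le_two)).trans_eq (av_mul _ _)).trans (by linarith)
    rintro g ⟨σ, n⟩ k
    exact n (by simpa [u, e, ln, add_assoc] using k.2 σ)
  have b5 := q1 15 21 rfl
  have b6 := q2 (show 15 < 21 by omega)
  have b7 := pow_nonneg a0 15
  obtain ⟨g, g1, g2⟩ := hR m d E V (9 * a ^ 15) H.ld hE (by
    have := q2 (show 0 < 8 by omega)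
    have : ((d : ℝ) + 1) * a ≤ 2 := by
      have : (d : ℝ) ≤ y := by exact_mod_cast hd
      nlinarith
    have := mul_le_mul_of_nonneg_right this (pow_nonneg a0 8)
    rw [H.cE, Nat.cast_pow]
    calc _ = 27 * (d + 1) * (y ^ 6 * a ^ 15) := by ring
      _ < 1 := by rw [q1 9 15 rfl]; linarith) (by
    have := un _ _ r2
    have := ob_le_add (U := U) (ι := j) (B := fun l : Lb Idx E m =>
        ¬∃ p : E[X], p.natDegree ≤ d ∧ ∀ t, V (l.2.1 + t • l.2.2) = p.eval t)
      (B' := fun l => ¬Ok fun k => W (l.1 + u k, e k l.2))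
      (B'' := fun l => ∃ k, W (l.1 + u k, e k l.2) ≠ V (e k l.2).1) fun _ _ z n =>
      by_contra fun n' => by
        obtain ⟨⟨p, p1, p2⟩, -⟩ := not_not.1 fun a => n' (.inl a)
        exact n ⟨p, p1, fun s => by_contra fun a => n' (.inr ⟨.inl s, fun b => a (by
          simpa [e, ln_fst] using b.symm.trans (p2 s))⟩)⟩
    exact ((pr_snd _).symm.trans_le this).trans (by linarith))
  have b8 := q2 (show 14 < 15 by omega)
  have b9 := q2 (show 21 < 29 by omega)
  have := ob3 U j (fun l => ¬Is enc x l (g l.2.1)) (fun l => ¬∃ a, Is enc x l a)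
    (fun l => W l ≠ V l.2.1) (fun l => V l.2.1 ≠ g l.2.1) fun l n n₁ n₂ n₃ =>
      n (n₃ ▸ not_not.1 n₂ ▸ hW _ (not_not.1 n₁))
  have r3 : ob U j (fun l : Lb Idx E m => V l.2.1 ≠ g l.2.1) = pr fun z => V z ≠ g z :=
    (pr_snd fun z : (Fin m → E) × (Fin m → E) => V z.1 ≠ g z.1).trans
      (pr_fst fun z => V z ≠ g z)
  rw [q] at np
  exact ⟨g, g1, by rw [q, err]; linarith⟩

end Pool.Agent.PP
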