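import Pool.Agent.MP_13199e_lc.PP.C.Spec

/-! PROJECT PP, block C: the purifier and the clean-up. -/

set_option autoImplicit false

namespace Pool.Agent.PP

namespace Pur

variable {y : ℕ}

theorem iv_lt (h : 2 ^ 20 ≤ y) {a b : ℕ} (hab : a < b) :
    1 / (y : ℝ) ^ b ≤ 1 / (y : ℝ) ^ a / 1000 := by
  have h1 : (1000 : ℝ) ≤ y := by exact_mod_cast le_trans (by norm_num) h
  rw [div_div]
  refine one_div_le_one_div_of_le (by positivity) (le_trans ?_ (pow_le_pow_right₀ (by linarith) hab))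
  rw [pow_succ]
  gcongr

theorem mul_iv (h : 2 ^ 20 ≤ y) {a b c : ℕ} (e : a + c = b) {x : ℝ} (hx : x ≤ 1 / (y : ℝ) ^ b) :
    (y : ℝ) ^ a * x ≤ 1 / (y : ℝ) ^ c := by
  have : (0 : ℝ) < y := by exact_mod_cast lt_of_lt_of_le (by norm_num) h
  refine (mul_le_mul_of_nonneg_left hx (by positivity)).trans_eq ?_
  rw [← e, pow_add]
  field_simp

end Pur

open Pur

variable {y m w : ℕ} {E Idx : Type} [Field E] [Finite E] [AddCommGroup Idx] [Finite Idx]
  (enc : E ≃ (Fin w → Bool)) (Cx : Type)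

theorem purS (H : Hyp y m w E Idx) (h1 : PzS) (h2 : PasS enc y m Idx Cx)
    (h3 : KcS y m Idx Cx E) : PurS enc y m Idx Cx := by
  intro U U' Ver Pz _ _ ver pz sz d hd hV hP s1 s2 hU hI
  have hy := H.hy
  have : Finite Pz := Nat.finite_of_card_ne_zero (by rw [hP]; positivity)
  refine ((h1 Cx E Idx _ Pz w enc U pz sz s1 s2).comp (((h2 U d hd).comp (h3 U Ver ver hV)).seq
    (Real.gates _ (fun (k : Fin w) b => bif b then .inr () else .inl k) (fun _ _ => 1)
      (fun _ _ => false) fun _ _ a b => a && b))).mono ?_ ?_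
  · have := H.hw
    have a1 : y ^ 32 ≤ y ^ 130 := Nat.pow_le_pow_right (by omega) (by norm_num)
    have a2 : y ^ 40 ≤ y ^ 130 := Nat.pow_le_pow_right (by omega) (by norm_num)
    have a3 : y ^ 1 ≤ y ^ 130 := Nat.pow_le_pow_right (by omega) (by norm_num)
    have a4 : 3 * w * (y ^ 30 + 1) ≤ y * y * y ^ 30 := by
      have : 1 ≤ y ^ 30 := Nat.one_le_pow _ _ (by omega)
      calc 3 * w * (y ^ 30 + 1) ≤ 3 * y * (y ^ 30 + y ^ 30) := by gcongr
        _ = 6 * y * y ^ 30 := by ring
        _ ≤ _ := by gcongr; omega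
    rw [hP, Nat.card_fin, pow_succ y 130]
    nlinarith
  rintro c x o F ⟨W, hW, K, ⟨p, hp, hK⟩, ho⟩ j hφ
  obtain ⟨w1, w2⟩ := hW j
  obtain ⟨p1, p2⟩ := hp j hφ
  obtain ⟨⟨ν, k1⟩, k2, k3⟩ := hK j hφ
  rw [hP, Nat.cast_pow] at w1 w2
  unfold e0 at hφ
  have z := Ld.const (m := m) d (enc.symm fun _ => false)
  have y0 : (0 : ℝ) < y := by exact_mod_cast lt_of_lt_of_le (by norm_num) hy
  have fin : ∀ (P : Idx → Prop) (b : Bool) (G : (Fin m → E) → E), ∀ u ∈ U,
      (∀ v ∈ U', P (j + u + v)) → ob U j (fun l => P l.1 ∧ K () l ≠ ofB b) ≤ 1 / (y : ℝ) ^ 30 →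
      (bif b then err enc W U j G ≤ 1 / (y : ℝ) ^ 14 else G = fun _ => enc.symm fun _ => false) →
      err enc o U' (j + u) G ≤ e3 y := fun P b G u hu hP h h' => by
    have a : ob U j (fun l => P l.1 ∧ ¬Is enc o l (G l.2.1)) ≤ 1 / (y : ℝ) ^ 13 := by
      have := iv_lt hy (show 13 < 14 by norm_num)
      have := iv_lt hy (show 13 < 30 by norm_num)
      have := iv_lt hy (show 13 < 69 by norm_num)
      have := one_div_pos.2 (pow_pos y0 13)
      cases b
      · refine (ob_le_add (B' := (· ∈ F)) fun v _ q ⟨a, b⟩ => by_contra fun n => b fun k => ?_).trans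
          ((add_le_add hφ h).trans (by linarith))
        simp only [not_or, not_and, not_not] at n
        have := ho _ n.1 k
        rw [show G = _ from h', Equiv.apply_symm_apply]
        exact (show Forc _ _ (some false) _ by simpa [n.2 a] using this).right (by simp)
      · refine (ob_le_add (B' := (· ∈ F)) (B'' := fun l => (P l.1 ∧ K () l ≠ ofB true) ∨
          ¬Is enc W l (G l.2.1)) fun v _ q ⟨a, b⟩ => by_contra fun n => b fun k => ?_).trans
          ((add_le_add hφ ((ob_le_add fun _ _ _ => id).trans (add_le_add h h'))).trans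
            (by linarith))
        simp only [not_or, not_and, not_not] at n
        have := ho _ n.1 k
        exact (show Forc _ (some _) (some true) _ by
          simpa [n.2.1 a, n.2.2 k] using this).pure.trans (by rw [Bool.and_true])
    refine (ob_mono (B' := fun l => P l.1 ∧ ¬Is enc o l (G l.2.1)) fun v hv q n =>
      ⟨hP v hv, n⟩).trans ((ob_sub hU _ _).trans ?_)
    rw [ob_add hu, Nat.cast_pow]
    exact mul_iv hy rfl a
  have := iv_lt hy (show 29 < 39 by norm_num)
  have := iv_lt hy (show 29 < 69 by norm_num)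
  have := iv_lt hy (show 14 < 29 by norm_num)
  have := one_div_pos.2 (pow_pos y0 29)
  have := mul_iv hy (show 30 + 39 = 69 from rfl) hφ
  have e2 : 2 / (y : ℝ) ^ 29 = 2 * (1 / (y : ℝ) ^ 29) := by ring
  refine ⟨?_, fun g hg h => ?_⟩
  · rcases lt_or_ge (1 / (y : ℝ) ^ 21) (ob U j fun l => p () l = ofB false) with h | h
    · exact ⟨ν, fun u hu _ => ⟨_, z, fin (fun _ => True) false _ u hu (fun _ _ => trivial)
        (by simpa using k2 h) rfl⟩⟩
    · obtain ⟨g, hg, h⟩ := p2 (by
        have a : (w : ℝ) / y ^ 30 ≤ 1 / y ^ 29 := by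
          rw [div_le_div_iff₀ (by positivity) (by positivity), one_mul, pow_succ' _ 29]
          gcongr; exact_mod_cast H.hw
        linarith) h
      refine ⟨ν, fun u hu n => ?_⟩
      obtain ⟨_ | _, hb⟩ := k1 _ n
      exacts [⟨_, z, fin (ver · = _) false _ u hu (hI _) hb rfl⟩,
        ⟨g, hg, fin (ver · = _) true _ u hu (hI _) hb h⟩]
  · have a := mul_iv hy (show 30 + 29 = 59 from rfl) h
    have b : err enc W U j g ≤ 2 / (y : ℝ) ^ 29 := (w2 fun q => g q.1).trans (by
      unfold err at a; linarith)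
    simpa using fin (fun _ => True) true g 0 U.zero_mem (fun _ _ => trivial)
      (by simpa using k3 (p1 g hg b)) (by simp only [cond_true]; linarith)

theorem clS (H : Hyp y m w E Idx) (h : OpS enc y m Idx Cx) : ClS enc y m Idx Cx := by
  intro U
  have hy := H.hy
  have y1 : (1000 : ℝ) ≤ y := by exact_mod_cast le_trans (by norm_num) hy
  refine (Real.chain y fun _ _ => (h U Unit (fun _ => 0) (fun _ _ x => x) (fun _ v => v ())
    (by simpa using Nat.one_le_pow _ _ (by omega)) (fun _ _ _ => rfl) (fun _ _ _ _ _ => rfl)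
    ⟨E, inferInstance, inferInstance, fun _ _ a => a, fun _ a => a,
      H.cE.trans_le (Nat.pow_le_pow_right (by omega) (by norm_num)), by simp⟩).ren
      Prod.snd).mono (pow_succ' y 160).ge ?_
  rintro c x _ F ⟨v, rfl, rfl, hv⟩ j g hφ hg h0
  have f0 := flt_nonneg U j F
  have key : ∀ k ≤ y, err enc (v k) U j g ≤ e3 y ∧
      err enc (v k) U j g ≤ 1 / 2 ^ (k + 1) + 2 * (y ^ 9 * flt U j F) := by
    have a1 := mul_iv hy (show 9 + 60 = 69 from rfl) hφ
    have a2 := iv_lt hy (show 9 < 60 by norm_num)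
    have a3 := iv_lt hy (show 0 < 9 by norm_num)
    have a4 : (2 : ℝ) ≤ y ^ 51 := le_trans (by linarith) (le_self_pow₀ (by linarith) (by norm_num))
    have a5 : 0 ≤ (y : ℝ) ^ 9 * flt U j F := by positivity
    unfold e3 at *
    intro k
    induction k with
    | zero => exact fun _ => ⟨h0, by norm_num at a3 h0 ⊢; linarith⟩
    | succ k ih =>
      intro hk
      obtain ⟨i1, i2⟩ := ih (by omega)
      have b : 0 ≤ err enc (v k) U j g := ob_nonneg _ _ _
      have a := hv k hk j (fun _ => g) _ b i1 fun _ => ⟨hg, by rw [add_zero]; rfl⟩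
      have := div_le_div_of_nonneg_left b two_pos a4
      have e : (1 : ℝ) / 2 ^ (k + 1 + 1) = 1 / 2 ^ (k + 1) / 2 := by rw [div_div, ← pow_succ]
      have : 0 < 1 / (y : ℝ) ^ 9 := by positivity
      exact ⟨a.trans (by linarith), a.trans (by linarith)⟩
  have gap : ∀ B : Lb Idx E m → Prop, 0 < ob U j B → 1 / 2 ^ y ≤ ob U j B := fun B hB => by
    obtain ⟨q, hq⟩ := exists_of_pr_pos hB
    refine le_trans (one_div_le_one_div_of_le (Nat.cast_pos.2 Nat.card_pos) ?_) (le_pr hq)
    have := H.lg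
    rw [Nat.card_prod] at this ⊢
    exact_mod_cast (Nat.mul_le_mul_right _ (Finite.card_subtype_le _)).trans this
  have a := (key y le_rfl).2
  have e : (1 : ℝ) / 2 ^ (y + 1) = 1 / 2 ^ y / 2 := by rw [div_div, ← pow_succ]
  have p : (0 : ℝ) < 1 / 2 ^ y := by positivity
  rcases f0.eq_or_lt with f | f
  · rw [← f] at a ⊢
    exact not_lt.1 fun n => by linarith [show _ ≤ err enc (v y) U j g from gap _ (mul_zero (_ : ℝ) ▸ n)]
  · have b : 1 / 2 ^ y ≤ flt U j F := gap _ f
    have := mul_le_mul_of_nonneg_right (one_le_pow₀ (n := 9) (show (1 : ℝ) ≤ y by linarith)) f0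
    have := mul_le_mul_of_nonneg_right y1 (show 0 ≤ (y : ℝ) ^ 9 * flt U j F by positivity)
    rw [pow_succ' _ 9, mul_assoc]
    linarith

end Pool.Agent.PP
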