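import Pool.Agent.MP_13199e_lc.PP.C.Spec

/-! PROJECT PP, row PZ: purification along a chain. -/

set_option autoImplicit false

namespace Pool.Agent.PP

namespace PzK

theorem two : ∀ v : V4, (∃ c, rd true v = some c) ∨ rd false v = some true ∧ v ≠ ofB true := by
  decide

/-- A pure value stays along a chain of copies. -/
theorem stay {T i : ℕ} {v : ℕ → V4} (h : ∀ k < T, ∀ c, rd false (v k) = some c → v (k + 1) = ofB c)
    {c : Bool} (h0 : rd false (v i) = some c) (k : ℕ) (hi : i < k) (hk : k ≤ T) : v k = ofB c := by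
  induction hi with
  | refl => exact h i hk c h0
  | step _ ih => exact h _ hk c (by rw [ih (Nat.le_of_succ_le hk), rd_ofB])

variable {Idx Y Pz : Type} [AddCommGroup Idx] [Finite Idx] [Finite Y] [AddCommGroup Pz] [Finite Pz]
  {U : AddSubgroup Idx} (pz : Idx →+ Pz) {sz : Pz →+ Idx}

theorem base (hU : ∀ a, sz a ∈ U) (j : Idx) (B : Idx × Y → Prop) :
    ob U j (fun l => B (l.1 - sz (pz l.1), l.2)) ≤ Nat.card Pz * ob U j B :=
  (pr_mono fun q k => ⟨_, k⟩).trans (pr_exists_le'
    (p := fun a (q : U × Y) => B (j + q.1 - sz a, q.2)) fun a =>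
      ((pr_congr fun q => by rw [add_right_comm, ← sub_eq_add_neg]).trans
        (ob_add (U.neg_mem (hU a)) j B)).le)

theorem leaf (h1 : ∀ a, pz (sz a) = a) (hU : ∀ a, sz a ∈ U) (j : Idx) (B : Pz → Idx × Y → Prop)
    (h : ∀ q a b, B a q → B b q → a = b) :
    ob U j (fun l => B (pz l.1) (l.1 - sz (pz l.1), l.2)) ≤ 1 / (Nat.card Pz : ℝ) := by
  rw [← av_const (α := Pz) (ob U j _), ← av_congr fun a => ob_add (hU a) j _]
  refine (pr_comm _).trans_le ?_
  cases isEmpty_or_nonempty (U × Y)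
  · simp [av]
  refine av_le fun q => pr_le_inv fun a b ha hb => ?_
  have e : ∀ a, j + sz a + q.1 - sz (pz (j + sz a + q.1)) = j + q.1 - sz (pz (j + q.1)) :=
    fun a => by simp only [map_add, h1]; abel
  simp only [e] at ha hb
  simpa [h1] using h _ _ _ ha hb

end PzK

theorem pzS (h : SelS) : PzS := by
  intro Cx E Idx Y Pz _ _ _ _ _ w enc U pz sz h1 hU
  let n := Finite.equivFin Pz
  refine ((((Real.iterAll (In := Empty) (Nat.card Pz) fun _ _ =>
    Real.copy (locS Cx (Idx × Y)) (κ := Fin w) Sum.inr (fun _ => 1) fun _ => false).ren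
      (Sum.elim Empty.elim id)).comp (Real.par fun b : Fin w => h _ _ Pz (locS Cx (Idx × Y))
        (fun a => ((n a : ℕ), b)) (fun a => (Equiv.subRight (sz a)).prodCongr (Equiv.refl Y))
        (fun _ => true) fun c => pz c.2.1)).out fun b => (b, ())).mono ?_ ?_
  · simp only [Nat.card_eq_fintype_card (α := Fin w), Fintype.card_fin]
    nlinarith
  rintro c x _ F ⟨o, ⟨v, ⟨h0, hv⟩, ho⟩, rfl⟩ j
  have st : ∀ q ∉ F, ∀ b i c, rd false (v (i, b) q) = some c → ∀ k, i < k → k ≤ Nat.card Pz →
      v (k, b) q = ofB c := fun q hq b i c u =>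
    PzK.stay (v := fun k => v (k, b) q) (fun k hk c u => hv k hk q hq b c u) u
  have ho' : ∀ l ∉ F, ∀ b c, rd true (v (n (pz l.1), b) (l.1 - sz (pz l.1), l.2)) = some c →
      o (b, ()) l = ofB c := fun l hl b c u => ho b l hl c u
  refine ⟨?_, fun G => ?_⟩
  · let B : Fin w → Pz → Idx × Y → Prop := fun b a q => q ∉ F ∧
      rd false (v (n a, b) q) = some true ∧ v (n a, b) q ≠ ofB true
    have k1 := pr_exists_le' fun b => PzK.leaf pz h1 hU j (B b) fun q a a' u u' =>
      n.injective (Fin.ext (le_antisymm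
        (not_lt.1 fun k => u.2.2 (st q u.1 b _ _ u'.2.1 _ k (n a).2.le))
        (not_lt.1 fun k => u'.2.2 (st q u.1 b _ _ u.2.1 _ k (n a').2.le))))
    have k2 := PzK.base pz hU j (· ∈ F)
    have k3 := pr_or (fun q : U × Y => (j + q.1, q.2) ∈ F)
      fun q => (j + q.1 - sz (pz (j + q.1)), q.2) ∈ F
    simp only [Nat.card_eq_fintype_card (α := Fin w), Fintype.card_fin, mul_one_div] at k1
    refine (pr_le_add fun q k => ?_).trans (add_le_add k1 (k3.trans ?_))
    · by_contra u
      simp only [not_or, not_exists, B, not_and] at u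
      choose f hf using fun b => (PzK.two _).resolve_right fun t => u.1 b u.2.2 t.1 t.2
      exact k ⟨enc.symm f, fun b => by rw [enc.apply_symm_apply]; exact ho' _ u.2.1 b _ (hf b)⟩
    · unfold flt ob at *
      linarith
  · refine (ob_le_add fun u _ z k => ?_).trans (add_le_add
      ((PzK.base pz hU j fun l => ¬Is enc x l (G l.2) ∨ l ∈ F).trans
        (mul_le_mul_of_nonneg_left (pr_or _ _) (Nat.cast_nonneg _))) le_rfl)
    by_contra t
    simp only [not_or, not_not] at t
    refine k fun b => ho' _ t.2 b _ ?_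
    have e : v (0, b) _ = _ := (congrFun (congrFun h0 b) _).trans (t.1.1 b)
    rcases (n (pz (j + u))).1.eq_zero_or_pos with p | p
    · rw [p, e, rd_ofB]
    · rw [st _ t.1.2 b 0 _ (by rw [e, rd_ofB]) _ p (n _).2.le, rd_ofB]

end Pool.Agent.PP
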