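import Pool.Agent.MP_13199e_lc.PP.C.Spec

/-! PROJECT PP, block C: the line test and the plurality lemma. -/

set_option autoImplicit false

namespace Pool.Agent.PP

open Function Polynomial

theorem pluS : PluS := by
  classical
  intro G σ E _ _ _ _ _ γ lam f l0 l1 hγ
  have := Fintype.ofFinite E
  have : Nonempty E := ⟨f 0⟩
  obtain ⟨a, ha⟩ := Finite.exists_max fun a => pr fun g => f g = a
  have key : ∀ b, pr (fun g => f g = b) * (1 - pr fun g => f g = b) ≤
      2 * av fun g => ind (f g = b) * (1 - pr fun s => f (g + γ s) = b) := fun b => by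
    have h := hγ fun g => ind (f g = b)
    have c := av_cs (fun g => ind (f g = b) - pr fun g => f g = b)
      fun g => pr (fun s => f (g + γ s) = b) - pr fun g => f g = b
    have t : av (fun g => pr fun s => f (g + γ s) = b) = pr fun g => f g = b :=
      av_av_shift (fun g => ind (f g = b)) γ
    have m : av (fun g => ind (f g = b)) = pr fun g => f g = b := rfl
    rw [m] at h
    rw [var_ind] at h c
    have p0 := pr_nonneg fun g => f g = b
    have p1 := pr_le_one fun g => f g = b
    generalize pr (fun g => f g = b) = μ at *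
    have v : 0 ≤ μ * (1 - μ) := mul_nonneg p0 (by linarith)
    have k := abs_le.1 (abs_le_of_sq_le_sq (b := lam * (μ * (1 - μ))) (c.trans
      ((mul_le_mul_of_nonneg_left h v).trans_eq (by ring))) (by positivity))
    have e : ∀ g, ind (f g = b) * (1 - pr fun s => f (g + γ s) = b) = (1 - μ) * ind (f g = b) -
        (ind (f g = b) - μ) * (pr (fun s => f (g + γ s) = b) - μ) -
        μ * pr (fun s => f (g + γ s) = b) + μ ^ 2 := fun g => by ring
    simp only [e, av_add, av_sub, av_mul, av_const, t, m]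
    nlinarith
  have s1 : ∑ b, pr (fun g => f g = b) = 1 := by
    unfold pr
    rw [← av_sum]
    simp [ind, av_const]
  have s2 : ∑ b, av (fun g => ind (f g = b) * (1 - pr fun s => f (g + γ s) = b)) ≤
      pr fun g => ∃ s, f (g + γ s) ≠ f g := by
    rw [← av_sum]
    refine av_mono fun g => ?_
    rw [Finset.sum_eq_single (f g) (fun b _ h => by rw [ind_neg h.symm, zero_mul]) (by simp),
      ind_pos rfl, one_mul]
    by_cases u : ∃ s, f (g + γ s) ≠ f g
    · rw [ind_pos u]; linarith [pr_nonneg fun s => f (g + γ s) = f g]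
    · rw [ind_neg u, pr_of_all fun s => by_contra fun v => u ⟨s, v⟩, sub_self]
  refine ⟨a, ?_⟩
  rw [pr_not, ← one_mul (1 - _), ← s1, Finset.sum_mul]
  refine (Finset.sum_le_sum fun b _ => le_trans ?_ (key b)).trans ?_
  · rw [s1]; exact mul_le_mul_of_nonneg_left (by linarith [ha b]) (pr_nonneg _)
  · rw [← Finset.mul_sum]; linarith

theorem Rs.bij {E X : Type} [Field E] [AddCommGroup X] [Module E X] (x : X) {t : E} (h : t ≠ 0) :
    Bijective fun r : X => x + t • r :=
  (AddGroup.addLeft_bijective x).comp (MulAction.bijective (Units.mk0 t h))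

theorem rsS : RsS := by
  intro m d E _ _ W δ K hd hδ hW
  obtain ⟨t, c, ht, hc⟩ := K.node d hd
  set Bad := fun q : (Fin m → E) × (Fin m → E) =>
    ¬∃ p : E[X], p.natDegree ≤ d ∧ ∀ t, W (q.1 + t • q.2) = p.eval t
  let V : (Fin m → E) → (Fin m → E) → E := fun ρ x => ∑ i, c 0 i * W (x + t i • ρ)
  have d0 : 0 ≤ δ := (pr_nonneg _).trans hW
  have g0 : ∀ x ρ, ¬Bad (x, ρ) → W x = V ρ x := fun x ρ h => by
    simpa using (hc fun s => W (x + s • ρ)).1 (not_not.1 h) 0
  have nc : (Nat.card (Fin (d + 1)) : ℝ) = d + 1 := by simp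
  have h1 : ∀ x, ∃ a, pr (fun ρ => V ρ x ≠ a) ≤ 2 * (d + 1) * δ := fun x => by
    obtain ⟨r, hr⟩ := exists_le_av fun r => pr fun ρ => V ρ x ≠ V r x
    refine ⟨_, hr.trans ?_⟩
    have b : pr (fun q : (Fin m → E) × (Fin m → E) => ∃ i, Bad (x + t i • q.1, q.2)) ≤
        (d + 1) * δ := nc ▸ pr_exists_le' fun i =>
      (pr_bij ((Rs.bij x (ht i)).prodMap bijective_id) Bad).trans_le hW
    have b' : pr (fun q : (Fin m → E) × (Fin m → E) => ∃ i, Bad (x + t i • q.2, q.1)) ≤
        (d + 1) * δ := (pr_equiv (Equiv.prodComm _ _)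
      fun q : (Fin m → E) × (Fin m → E) => ∃ i, Bad (x + t i • q.1, q.2)).trans_le b
    refine (pr_prod fun q : (Fin m → E) × (Fin m → E) => V q.2 x ≠ V q.1 x).symm.trans_le
      ((pr_le_add fun q h => ?_).trans ((add_le_add b b').trans_eq (by ring)))
    by_contra u
    simp only [not_or, not_exists] at u
    refine h ?_
    show ∑ i, c 0 i * W _ = ∑ i, c 0 i * W _
    simp only [fun i => g0 _ _ (u.2 i), fun i => g0 _ _ (u.1 i), Finset.mul_sum, V]
    rw [Finset.sum_comm]
    exact Finset.sum_congr rfl fun i _ => Finset.sum_congr rfl fun j _ => by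
      rw [mul_left_comm, add_right_comm]
  choose g hg using h1
  have Q : (2 : ℝ) ≤ Nat.card E := by exact_mod_cast (by omega : 2 ≤ Nat.card E)
  have D : 0 ≤ (d + 1) * δ := by positivity
  refine ⟨g, fun x r => ?_, ?_⟩
  · have b1 : pr (fun q : (Fin m → E) × (Fin m → E) =>
        ∃ s : E, V (q.1 + s • q.2) (x + s • r) ≠ g (x + s • r)) ≤
        Nat.card E * (2 * (d + 1) * δ) := pr_exists_le' fun s => by
      rw [pr_prod']
      refine av_le fun b => ?_
      exact (pr_shift (fun ρ => V ρ (x + s • r) ≠ g (x + s • r)) (s • b)).trans_le (hg _)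
    have b2 : pr (fun q : (Fin m → E) × (Fin m → E) => ∃ i, Bad (x + t i • q.1, r + t i • q.2)) ≤
        (d + 1) * δ := nc ▸ pr_exists_le' fun i =>
      (pr_bij ((Rs.bij x (ht i)).prodMap (Rs.bij r (ht i))) Bad).trans_le hW
    obtain ⟨q, hq⟩ := exists_not_of_pr_lt ((pr_or _ _).trans_lt
      ((add_le_add b1 b2).trans_lt (by nlinarith)))
    rw [not_or, not_exists, not_exists] at hq
    choose p p1 p2 using fun i => not_not.1 (hq.2 i)
    refine ⟨∑ i, C (c 0 i) * p i, natDegree_sum_le_of_forall_le _ _ fun i _ =>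
      (natDegree_C_mul_le _ _).trans (p1 i), fun s => ?_⟩
    rw [← not_not.1 (hq.1 s), eval_finsetSum]
    refine Finset.sum_congr rfl fun i _ => ?_
    rw [eval_C_mul, ← p2]
    congr 2
    module
  · refine (pr_mono fun x h => ?_).trans ((markov (f := fun x => pr fun ρ => Bad (x, ρ))
      (fun _ => pr_nonneg _) one_half_pos).trans (by rw [← pr_prod]; linarith))
    have := pr_le_add (r := fun _ => True) (p := fun ρ => Bad (x, ρ)) (q := fun ρ => V ρ x ≠ g x)
      fun ρ _ => (em _).imp_right fun u v => h ((g0 x ρ u).trans v)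
    rw [pr_of_all fun _ => trivial] at this
    nlinarith [hg x]

end Pool.Agent.PP
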