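import Pool.Agent.MP_13199e_lc.PP.Prob

/-! PROJECT PP: small bias sets are samplers, and they exist. -/

set_option autoImplicit false
set_option linter.unusedSectionVars false

namespace Pool.Agent.PP

namespace SmpE

open Module

/-- The sign of a bit. -/
noncomputable def sg (a : ZMod 2) : ℝ := if a = 0 then 1 else -1

theorem z2 : ∀ a : ZMod 2, a = 0 ∨ a = 1 := by decide

theorem sg_zero : sg 0 = 1 := if_pos rfl

theorem sg_one : sg 1 = -1 := if_neg one_ne_zero

theorem sg_add (a b : ZMod 2) : sg (a + b) = sg a * sg b := by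
  have e : (1 + 1 : ZMod 2) = 0 := rfl
  rcases z2 a with rfl | rfl <;> rcases z2 b with rfl | rfl <;> simp [e, sg_zero, sg_one]

theorem sg_sq (a : ZMod 2) : sg a * sg a = 1 := by
  rcases z2 a with rfl | rfl <;> simp [sg_zero, sg_one]

theorem abs_sg (a : ZMod 2) : |sg a| = 1 := by
  rcases z2 a with rfl | rfl <;> simp [sg_zero, sg_one]

/-- A nonzero additive bit has mean zero sign. -/
theorem av_sg {A : Type} [AddGroup A] [Finite A] (l : A → ZMod 2)
    (hl : ∀ x y, l (x + y) = l x + l y) {a : A} (ha : l a ≠ 0) : av (fun x => sg (l x)) = 0 := by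
  have h := av_shift (fun x => sg (l x)) a
  simp only [hl, sg_add, (z2 (l a)).resolve_left ha, sg_one, av_mul'] at h
  linarith

variable {G : Type} [AddCommGroup G] [Module (ZMod 2) G] [Finite G]

instance : Finite (Dual (ZMod 2) G) := Finite.of_injective _ DFunLike.coe_injective

theorem add_self (x : G) : x + x = 0 := by
  rw [← two_smul (ZMod 2) x, show (2 : ZMod 2) = 0 from rfl, zero_smul]

theorem orth (x y : G) : av (fun ξ : Dual (ZMod 2) G => sg (ξ x) * sg (ξ y)) = ind (y = x) := by
  by_cases h : y = x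
  · simp only [h, sg_sq, av_const, ind_pos]
  · have : x + y ≠ 0 := fun k => h (add_left_cancel (k.trans (add_self x).symm))
    obtain ⟨ξ, hξ⟩ := not_forall.1 (mt (forall_dual_apply_eq_zero_iff (ZMod 2) _).1 this)
    simp only [← sg_add, ← map_add, ind_neg h]
    exact av_sg (fun ξ : Dual (ZMod 2) G => ξ (x + y)) (fun _ _ => rfl) hξ

/-- The Fourier coefficient. -/
noncomputable def hat (f : G → ℝ) (ξ : Dual (ZMod 2) G) : ℝ := av fun x => f x * sg (ξ x)

theorem av_pt (f : G → ℝ) (x : G) : av (fun y => f y * ind (y = x)) = f x / Nat.card G := by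
  classical
  have := Fintype.ofFinite G
  rw [av_eq, Nat.card_eq_fintype_card, Finset.sum_eq_single x (fun y _ h => by simp [ind, h])
    (by simp), ind_pos rfl, mul_one]

theorem parseval (f : G → ℝ) :
    av (fun ξ => hat f ξ ^ 2) = av (fun x => f x ^ 2) / Nat.card G := by
  have : ∀ ξ, hat f ξ ^ 2 = av fun x => av fun y => f x * (f y * (sg (ξ x) * sg (ξ y))) :=
    fun ξ => by
      rw [sq, hat, ← av_mul']
      refine av_congr fun x => ?_
      rw [← av_mul]
      exact av_congr fun y => by ring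
  simp only [this]
  rw [av_comm, ← av_div]
  refine av_congr fun x => ?_
  rw [av_comm]
  simp only [av_mul, orth, av_pt]
  ring

theorem smp_of_bias {S : Type} [Finite S] [Nonempty S] (γ : S → G) {lam : ℝ}
    (h : ∀ ξ : Dual (ZMod 2) G, ξ ≠ 0 → |av fun σ => sg (ξ (γ σ))| ≤ lam) : Smp γ lam := by
  intro f
  have hc : (0 : ℝ) < Nat.card G := Nat.cast_pos.2 Nat.card_pos
  have k : ∀ ξ, hat (fun g => av (fun σ => f (g + γ σ)) - av f) ξ =
      hat (fun g => f g - av f) ξ * av fun σ => sg (ξ (γ σ)) := fun ξ => by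
    have e : ∀ g, (av (fun σ => f (g + γ σ)) - av f) * sg (ξ g) =
        av fun σ => (f (g + γ σ) - av f) * sg (ξ (g + γ σ)) * sg (ξ (γ σ)) := fun g => by
      rw [← av_const (α := S) (av f), ← av_sub, ← av_mul', av_const]
      refine av_congr fun σ => ?_
      rw [map_add, sg_add, mul_assoc, mul_assoc, sg_sq, mul_one]
    rw [hat, ← av_mul]
    simp only [e]
    rw [av_comm]
    refine av_congr fun σ => ?_
    rw [av_mul', av_shift (fun g => (f g - av f) * sg (ξ g))]
    rfl
  rw [← div_le_div_iff_of_pos_right hc, mul_div_assoc, ← parseval, ← parseval, ← av_mul]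
  refine av_mono fun ξ => ?_
  rw [k, mul_pow, mul_comm]
  by_cases u : ξ = 0
  · simp [u, hat, sg_zero, av_sub, av_const]
  · refine mul_le_mul_of_nonneg_right ?_ (sq_nonneg _)
    rw [← sq_abs]
    exact pow_le_pow_left₀ (abs_nonneg _) (h ξ u) 2

theorem exists_bias (t : ℕ) (ht : t ≠ 0) : ∃ γ : GaloisField 2 t × GaloisField 2 t → G,
    ∀ ξ : Dual (ZMod 2) G, ξ ≠ 0 →
      |av fun σ => sg (ξ (γ σ))| ≤ (finrank (ZMod 2) G : ℝ) / 2 ^ t := by
  classical
  let b := finBasis (ZMod 2) G
  obtain ⟨φ, hφ⟩ := not_forall.1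
    (mt (forall_dual_apply_eq_zero_iff (ZMod 2) (1 : GaloisField 2 t)).1 one_ne_zero)
  refine ⟨fun σ => ∑ i, φ (σ.2 * σ.1 ^ Fin.val i) • b i, fun ξ hξ => ?_⟩
  let P : Polynomial (GaloisField 2 t) :=
    ∑ i, Polynomial.monomial (Fin.val i) (algebraMap (ZMod 2) _ (ξ (b i)))
  have e : ∀ a c : GaloisField 2 t, ξ (∑ i, φ (c * a ^ Fin.val i) • b i) = φ (c * P.eval a) :=
    fun a c => by
      simp only [P, map_sum, map_smul, Polynomial.eval_finsetSum, Polynomial.eval_monomial,
        Finset.mul_sum, smul_eq_mul]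
      refine Finset.sum_congr rfl fun i _ => ?_
      rw [← Algebra.smul_def, mul_smul_comm, map_smul, smul_eq_mul, mul_comm]
  have hP : P ≠ 0 := fun k => hξ (b.ext fun i => by
    have := congrArg (fun Q => Polynomial.coeff Q i) k
    simpa [P, Polynomial.coeff_monomial, Fin.val_inj] using this)
  have hd : P.natDegree ≤ finrank (ZMod 2) G := Polynomial.natDegree_sum_le_of_forall_le _ _
    fun i _ => (Polynomial.natDegree_monomial_le _).trans i.2.le
  rw [av_prod]
  simp only [e]
  refine (abs_av_le _).trans ((av_mono (g := fun a => ind (P.eval a = 0)) fun a => ?_).trans ?_)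
  · by_cases u : P.eval a = 0
    · simp [u, sg_zero, av_const, ind]
    · rw [av_sg (fun c => φ (c * P.eval a)) (fun x y => by rw [add_mul, map_add])
        (a := (P.eval a)⁻¹) (by rwa [inv_mul_cancel₀ u]), abs_zero]
      exact ind_nonneg _
  · have := Fintype.ofFinite (GaloisField 2 t)
    have h1 : cn (fun a => P.eval a = 0) ≤ P.natDegree := by
      rw [cn_eq]
      exact (Finset.card_le_card fun a ha => by simpa [hP] using ha).trans
        ((Multiset.toFinset_card_le P.roots).trans P.card_roots')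
    refine (pr_eq_cn fun a => P.eval a = 0).trans_le ?_
    rw [GaloisField.card 2 t ht]
    push_cast
    exact div_le_div_of_nonneg_right (Nat.cast_le.2 (h1.trans hd)) (by positivity)

end SmpE

open SmpE Module

theorem Smp.mono {G S : Type} [Add G] [Finite G] {γ : S → G} {l l' : ℝ} (h : Smp γ l)
    (h0 : 0 ≤ l) (hl : l ≤ l') : Smp γ l' := fun f =>
  (h f).trans (mul_le_mul_of_nonneg_right (pow_le_pow_left₀ h0 hl 2)
    (av_nonneg fun _ => sq_nonneg _))

/-- Every group of exponent two with at most `2 ^ n` elements has a sampler with `4 ^ t` shifts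
and the parameter `n / 2 ^ t`. -/
theorem exists_smp' (G S : Type) [AddCommGroup G] [Finite G] (h2 : ∀ x : G, x + x = 0) (n t : ℕ)
    (hn : Nat.card G ≤ 2 ^ n) (hS : Nat.card S = 2 ^ (2 * t)) :
    ∃ γ : S → G, Smp γ (n / 2 ^ t) := by
  let _ : Module (ZMod 2) G := AddCommGroup.zmodModule fun x => by rw [two_nsmul, h2]
  have : Finite S := Nat.finite_of_card_ne_zero (by rw [hS]; positivity)
  have : Nonempty S := (Nat.card_pos_iff.1 (by rw [hS]; positivity)).1
  have hr : finrank (ZMod 2) G ≤ n := by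
    rw [natCard_eq_pow_finrank (K := ZMod 2), Nat.card_zmod] at hn
    exact (Nat.pow_le_pow_iff_right one_lt_two).1 hn
  by_cases ht : t = 0
  · refine ⟨fun _ => 0, smp_of_bias _ fun ξ hξ => ?_⟩
    have : 0 < finrank (ZMod 2) G := finrank_pos_iff_exists_ne_zero.2 <| by
      by_contra k
      exact hξ (LinearMap.ext fun x => by
        rw [show x = 0 from by_contra fun u => k ⟨x, u⟩, map_zero, map_zero])
    simp only [map_zero, sg_zero, av_const, abs_one, ht, pow_zero, div_one]
    exact Nat.one_le_cast.2 (by omega)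
  · obtain ⟨γ, h⟩ := exists_bias (G := G) t ht
    obtain ⟨e⟩ : Nonempty (S ≃ GaloisField 2 t × GaloisField 2 t) := Finite.card_eq.1 (by
      rw [hS, Nat.card_prod, GaloisField.card 2 t ht, two_mul, pow_add])
    refine ⟨fun σ => γ (e σ), smp_of_bias _ fun ξ hξ => ?_⟩
    rw [av_equiv e fun σ => sg (ξ (γ σ))]
    exact (h ξ hξ).trans (div_le_div_of_nonneg_right (Nat.cast_le.2 hr) (by positivity))

theorem exists_smp (G : Type) [AddCommGroup G] [Finite G] (h2 : ∀ x : G, x + x = 0) (n t : ℕ)
    (hn : Nat.card G ≤ 2 ^ n) : ∃ γ : (Fin (2 * t) → ZMod 2) → G, Smp γ (n / 2 ^ t) :=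
  exists_smp' G _ h2 n t hn (by simp)

end Pool.Agent.PP
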