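import Pool.Agent.MP_13199e_lc.PP.C.Spec
import Pool.Agent.MP_13199e_lc.PP.C.Smp

/-! PROJECT PP, row SMP. -/

namespace Pool.Agent.PP

theorem smpS : SmpS := fun n a _ G _ _ h2 hn =>
  exists_smp' G _ h2 n a hn (by rw [Nat.card_fin, pow_mul]; rfl)

end Pool.Agent.PP
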