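import Pool.Agent.MP_13199e_lc.PP.C.Defs

/-! PROJECT PP, block C: the statements of the rows. -/

set_option autoImplicit false

namespace Pool.Agent.PP

open Function Polynomial

/-- The word `a` of a family of words. -/
def wd {In P : Type} {w : ℕ} (x : In × Fin w → P → V4) (a : In) : Fin w → P → V4 :=
  fun b => x (a, b)

/-! ### Gates with many reads -/

/-- THR: a hazard free threshold gate. -/
def ThrS : Prop :=
  ∀ (Ctx In ι : Type) [Finite ι] (S : Stg Ctx) (src : ι → In) (wire : ι → S.Wi) (fl : ι → Bool)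
    (k : Ctx → ℕ), Real S (3 * (Nat.card ι + 2) ^ 2) (In := In) (Out := Unit) fun e x o F =>
      ∀ p ∉ F, (k (S.ctx e p) ≤ cn (fun i => rd (fl i) (x (src i) (S.rn e (wire i) p)) = some true) →
        o () p = ofB true) ∧
      (cn (fun i => rd (fl i) (x (src i) (S.rn e (wire i) p)) ≠ some false) < k (S.ctx e p) →
        o () p = ofB false)

/-- SEL: the context selects one read. -/
def SelS : Prop :=
  ∀ (Ctx In ι : Type) [Finite ι] (S : Stg Ctx) (src : ι → In) (wire : ι → S.Wi) (fl : ι → Bool)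
    (s : Ctx → ι), Real S (Nat.card ι + 1) (In := In) (Out := Unit) fun e x o F =>
      ∀ p ∉ F, ∀ b, rd (fl (s (S.ctx e p))) (x (src (s (S.ctx e p)))
        (S.rn e (wire (s (S.ctx e p))) p)) = some b → o () p = ofB b

/-- MAJ: the majority of symbols. -/
def MajS : Prop :=
  ∀ (Ctx E ι : Type) [Finite ι] (w : ℕ) (enc : E ≃ (Fin w → Bool)) (S : Stg Ctx)
    (wire : ι → S.Wi), Real S (w * (3 * (Nat.card ι + 2) ^ 2)) (In := Fin w) (Out := Fin w)
      fun e x o F => ∀ p ∉ F, ∀ a, 1 / 2 < pr (fun i => Is enc x (S.rn e (wire i) p) a) →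
        Is enc o p a

/-- SYM: a function of a sum over pure symbols. -/
def SymS : Prop :=
  ∀ (Ctx E In Out ι St : Type) [Finite Out] [Fintype ι] [AddCommMonoid St] [Finite St] (w : ℕ)
    (enc : E ≃ (Fin w → Bool)) (S : Stg Ctx) (src : ι → In) (wire : ι → S.Wi)
    (g : Ctx → ι → E → St) (out : Ctx → St → Out → Bool),
    Real S (10 * (Nat.card ι + Nat.card Out + 1) * Nat.card St ^ 2 * Nat.card E ^ 2)
      (In := In × Fin w) (Out := Out) fun e x o F => ∀ p ∉ F, ∀ v : ι → E,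
        (∀ i, Is enc (wd x (src i)) (S.rn e (wire i) p) (v i)) →
        ∀ k, o k p = ofB (out (S.ctx e p) (∑ i, g (S.ctx e p) i (v i)) k)

/-! ### Pure facts -/

/-- SMP: small bias samplers. -/
def SmpS : Prop := ∀ n a : ℕ, 1 ≤ a → HasSmp (2 ^ n) (4 ^ a) (n / 2 ^ a)

/-- LD. -/
def LdS : Prop := ∀ (m : ℕ) (E : Type) [Field E] [Finite E], (∀ a : E, a + a = 0) → LdK m E

/-- RS: the line test. -/
def RsS : Prop :=
  ∀ (m d : ℕ) (E : Type) [Field E] [Finite E] (W : (Fin m → E) → E) (δ : ℝ), LdK m E →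
    d + 1 < Nat.card E → 3 * Nat.card E * (d + 1) * δ < 1 →
    pr (fun q : (Fin m → E) × (Fin m → E) =>
      ¬∃ p : E[X], p.natDegree ≤ d ∧ ∀ t, W (q.1 + t • q.2) = p.eval t) ≤ δ →
    ∃ g, Ld d g ∧ pr (fun x => W x ≠ g x) ≤ 2 * δ

/-- PLU: a function that agrees along a sampler is close to a constant. -/
def PluS : Prop :=
  ∀ (G σ E : Type) [AddCommGroup G] [Finite G] [Finite σ] [Nonempty σ] [Finite E] (γ : σ → G)
    (lam : ℝ) (f : G → E), 0 ≤ lam → lam ≤ 1 / 2 → Smp γ lam →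
    ∃ a, pr (fun g => f g ≠ a) ≤ 2 * pr fun g => ∃ s, f (g + γ s) ≠ f g

/-- `Ψ c` is a function of a sum in a monoid with at most `N` elements. -/
def SumF (N : ℕ) {C ι E : Type} [Fintype ι] (Ψ : C → (ι → E) → E) : Prop :=
  ∃ (St : Type) (_ : AddCommMonoid St) (_ : Finite St) (g : C → ι → E → St) (out : C → St → E),
    Nat.card St ≤ N ∧ ∀ c v, Ψ c v = out c (∑ i, g c i (v i))

/-- PZ: purification along a chain. -/
def PzS : Prop :=
  ∀ (Cx E Idx Y Pz : Type) [AddCommGroup Idx] [Finite Idx] [Finite Y] [AddCommGroup Pz] [Finite Pz]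
    (w : ℕ) (enc : E ≃ (Fin w → Bool)) (U : AddSubgroup Idx) (pz : Idx →+ Pz) (sz : Pz →+ Idx),
    (∀ a, pz (sz a) = a) → (∀ a, sz a ∈ U) →
    Real (locS Cx (Idx × Y)) (3 * w * (Nat.card Pz + 1)) (In := Fin w) (Out := Fin w)
      fun _ x o F => ∀ j,
        ob U j (fun l => ¬∃ a, Is enc o l a) ≤
          w / Nat.card Pz + (Nat.card Pz + 1) * flt U j F ∧
        ∀ G : Y → E, ob U j (fun l => ¬Is enc o l (G l.2)) ≤
          Nat.card Pz * (ob U j (fun l => ¬Is enc x l (G l.2)) + flt U j F) + flt U j F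

/-! ### Fragments on words -/

section
variable {E : Type} [Field E] {w : ℕ} (enc : E ≃ (Fin w → Bool)) (y m : ℕ) (Idx Cx : Type)
  [AddCommGroup Idx]

/-- OP: one operation with self-correction. -/
def OpS : Prop :=
  ∀ (U : AddSubgroup Idx) (ι : Type) [Fintype ι] (γ : ι → Idx)
    (α : Idx → ι → (Fin m → E) → Fin m → E) (Ψ : Cx × Idx × (Fin m → E) → (ι → E) → E),
    Nat.card ι ≤ y ^ 2 → Inv U α → (∀ c x, Inv U fun j => Ψ (c, j, x)) → SumF (y ^ 72) Ψ →
    Real (locS Cx (Lb Idx E m)) (y ^ 160) (In := ι × Fin w) (Out := Fin w) fun c x o F =>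
      ∀ j (g : ι → (Fin m → E) → E) (η : ℝ), 0 ≤ η → η ≤ e3 y →
        (∀ i, Ld (dd y) (g i) ∧ err enc (wd x i) U (j + γ i) (g i) ≤ η) →
        err enc o U j (fun p => Ψ (c, j, p) fun i => g i (α j i p)) ≤
          η / (y : ℝ) ^ 51 + (y : ℝ) ^ 9 * flt U j F

/-- PAS: the local test. -/
def PasS : Prop :=
  ∀ (U : AddSubgroup Idx) (d : ℕ), d ≤ y →
    Real (locS Cx (Lb Idx E m)) (y ^ 40) (In := Fin w) (Out := Unit) fun _ x o F =>
      ∀ j, flt U j F ≤ e0 y →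
        (∀ g, Ld d g → err enc x U j g ≤ 2 / (y : ℝ) ^ 29 →
          ob U j (fun l => o () l ≠ ofB true) ≤ 1 / (4 * (y : ℝ) ^ 21)) ∧
        (ob U j (fun l => ¬∃ a, Is enc x l a) ≤ 2 / (y : ℝ) ^ 29 →
          ob U j (fun l => o () l = ofB false) ≤ 1 / (y : ℝ) ^ 21 →
          ∃ g, Ld d g ∧ err enc x U j g ≤ 1 / (y : ℝ) ^ 14)

/-- KC: the verdict in many versions; all but one are clean. -/
def KcS (E : Type) : Prop :=
  ∀ (U : AddSubgroup Idx) (Ver : Type) [Finite Ver] (ver : Idx → Ver), Nat.card Ver ≤ y ^ 3 →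
    Real (locS Cx (Lb Idx E m)) (y ^ 130) (In := Unit) (Out := Unit) fun _ x o F =>
      ∀ j, flt U j F ≤ e0 y →
        (∃ ν, ∀ ν' ≠ ν, ∃ b,
          ob U j (fun l => ver l.1 = ν' ∧ o () l ≠ ofB b) ≤ 1 / (y : ℝ) ^ 30) ∧
        (1 / (y : ℝ) ^ 21 < ob U j (fun l => x () l = ofB false) →
          ob U j (fun l => o () l ≠ ofB false) ≤ 1 / (y : ℝ) ^ 30) ∧
        (ob U j (fun l => x () l ≠ ofB true) ≤ 1 / (4 * (y : ℝ) ^ 21) →
          ob U j (fun l => o () l ≠ ofB true) ≤ 1 / (y : ℝ) ^ 30)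

variable {m Idx} in
/-- The relation of the purifier from the object `U` to the object `U'`. -/
def PurR {Ver : Type} (d : ℕ) (U U' : AddSubgroup Idx) (ver : Idx → Ver)
    (x o : Fin w → Lb Idx E m → V4) (F : Set (Lb Idx E m)) : Prop :=
  ∀ j, flt U j F ≤ e0 y →
    (∃ ν, ∀ u ∈ U, ver (j + u) ≠ ν → ∃ g, Ld d g ∧ err enc o U' (j + u) g ≤ e3 y) ∧
    ∀ g, Ld d g → err enc x U j g ≤ e1 y → err enc o U' j g ≤ e3 y

/-- PUR. -/
def PurS : Prop :=
  ∀ (U U' : AddSubgroup Idx) (Ver Pz : Type) [Finite Ver] [AddCommGroup Pz] (ver : Idx → Ver)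
    (pz : Idx →+ Pz) (sz : Pz →+ Idx) (d : ℕ), d ≤ y → Nat.card Ver ≤ y ^ 3 →
    Nat.card Pz = y ^ 30 → (∀ a, pz (sz a) = a) → (∀ a, sz a ∈ U) → Sub U U' (y ^ 4) →
    Inv U' ver → Real (locS Cx (Lb Idx E m)) (y ^ 131) (In := Fin w) (Out := Fin w)
      fun _ x o F => PurR enc y d U U' ver x o F

variable {m Idx Cx} in
/-- The relation of a program: inputs `g i` at the shifts `γ i`, output `G` if `T c j g G`. -/
def PgR {ι : Type} (U : AddSubgroup Idx) (γ : ι → Idx)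
    (T : Cx → Idx → (ι → (Fin m → E) → E) → ((Fin m → E) → E) → Prop) (c : Cx)
    (x : ι × Fin w → Lb Idx E m → V4) (o : Fin w → Lb Idx E m → V4) (F : Set (Lb Idx E m)) :
    Prop :=
  ∀ j g G, flt U j F ≤ e0 y → (∀ i, err enc (wd x i) U (j + γ i) (g i) ≤ e3 y) → T c j g G →
    err enc o U j G ≤ e1 y

/-- CW: a pointwise operation followed by the multilinearization. -/
def CwS : Prop :=
  ∀ (U : AddSubgroup Idx) (ι : Type) [Fintype ι] (γ : ι → Idx)
    (Ψ : Cx × Idx × (Fin m → E) → (ι → E) → E),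
    Nat.card ι ≤ y ^ 2 → (∀ c x, Inv U fun j => Ψ (c, j, x)) → SumF (y ^ 72) Ψ →
    Real (locS Cx (Lb Idx E m)) ((y + 1) * y ^ 160) (PgR enc y U γ fun c j g G =>
      (∀ i, Ld (dd y) (g i)) ∧ Ld (2 * y ^ 5) (fun p => Ψ (c, j, p) fun i => g i p) ∧
        G = mle fun h => Ψ (c, j, cub h) fun i => g i (cub h))

/-- CL: the clean-up. -/
def ClS : Prop :=
  ∀ U : AddSubgroup Idx, Real (locS Cx (Lb Idx E m)) (y ^ 161) (In := Fin w) (Out := Fin w)
    fun _ x o F => ∀ j g, flt U j F ≤ e0 y → Ld (dd y) g → err enc x U j g ≤ e3 y →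
      err enc o U j g ≤ (y : ℝ) ^ 10 * flt U j F

/-- TH: a threshold of the nonzero patterns. -/
def ThS : Prop :=
  ∀ (U : AddSubgroup Idx) (ι : Type) [Finite ι] (γ : ι → Idx) (kf : Idx → ℝ),
    Nat.card ι ≤ y ^ 2 → Inv U kf →
    Real (locS Cx (Lb Idx E m)) (y ^ 164) (PgR enc y U γ fun _ j g G =>
      (∀ i, Ld y (g i)) ∧ G = mlp fun h => kf j ≤ pr fun i => g i (cub h) ≠ 0)

/-- BO: a Boolean operation on twelve bit vectors. -/
def BoS : Prop :=
  ∀ (U : AddSubgroup Idx) (Φ : Cx → Idx → Bv m → (Ch × Bool → Prop) → Prop),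
    (∀ c, Inv U (Φ c)) →
    Real (locS Cx (Lb Idx E m)) (y ^ 162) (PgR enc y U (fun _ : Ch × Bool => 0) fun c j g G =>
      ∃ B : Ch × Bool → Bv m → Prop, (g = fun i => mlp (B i)) ∧
        G = mlp fun h => Φ c j h fun i => B i h)

/-- The result of block C. -/
structure Kit : Prop where
  op : OpS enc y m Idx Cx
  pur : PurS enc y m Idx Cx
  cl : ClS enc y m Idx Cx
  th : ThS enc y m Idx Cx
  bo : BoS enc y m Idx Cx

end

end Pool.Agent.PP
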