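import Pool.Agent.MP_13199e_lc.PP.C.Spec

/-! PROJECT PP, block C: a function of a sum over pure symbols. -/

set_option autoImplicit false

namespace Pool.Agent.PP

open Classical

namespace Sym

variable {Ctx In ι κ : Type} (S : Stg Ctx)

theorem any (src : ι → In) (wire : ι → S.Wi) (c : Ctx → Prop) (t : ι → Ctx → Bool → Prop)
    (T : Finset ι) : Real S (T.card + 1) (In := In) (Out := Unit) fun e x o F => ∀ p ∉ F,
      ∀ v : ι → Bool, (∀ i, x (src i) (S.rn e (wire i) p) = ofB (v i)) →
        o () p = ofB (decide (c (S.ctx e p) ∨ ∃ i ∈ T, t i (S.ctx e p) (v i))) := by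
  induction T using Finset.induction_on with
  | empty =>
    exact ⟨⟨Unit, inferInstance, fun _ _ => .inr (), fun _ _ => S.i0, fun _ _ => false,
      fun _ z _ _ => decide (c z)⟩, fun _ => .inr (), by simp,
      fun _ _ _ _ k p hp _ _ => k p hp () _ fun _ _ _ _ => by simp⟩
  | insert a T ha ih =>
    refine (ih.seq (Real.gate S (fun b => bif b then .inr () else .inl (src a))
      (fun b => bif b then S.i0 else wire a) (fun _ => false)
      fun z r s => decide (t a z r) || s)).mono (by rw [Finset.card_insert_of_notMem ha]) ?_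
    rintro e x o F ⟨y, h1, h2⟩ p hp v hv
    have h3 := h2 p hp
    simp only [cond_true, cond_false, Sum.elim_inl, Sum.elim_inr, S.rn0, hv, h1 p hp v hv,
      rd_ofB] at h3
    rw [h3.pure, ← Bool.decide_or]
    simp only [Finset.exists_mem_insert, or_left_comm]

theorem anys [Finite κ] [Finite ι] (src : κ → ι → In) (wire : ι → S.Wi) (c : κ → Prop)
    (t : κ → ι → Ctx → Bool → Prop) :
    Real S (Nat.card κ * (Nat.card ι + 1)) (In := In) (Out := κ) fun e x o F => ∀ p ∉ F, ∀ k,
      ∀ v : ι → Bool, (∀ i, x (src k i) (S.rn e (wire i) p) = ofB (v i)) → ∀ r : Bool,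
        (r = true ↔ c k ∨ ∃ i, t k i (S.ctx e p) (v i)) → o k p = ofB r := by
  have := Fintype.ofFinite ι
  refine ((Real.par fun k => any S (src k) wire (fun _ => c k) (t k) Finset.univ).out
    fun k => (k, ())).mono (by simp) ?_
  rintro e x _ F ⟨o, h, rfl⟩ p hp k v hv r hr
  refine (h k p hp v hv).trans (congrArg ofB (Bool.eq_iff_iff.2 ?_))
  simp [hr]

variable {E St : Type} [AddCommMonoid St] [Finite St] [Finite E] {w : ℕ}
  (enc : E ≃ (Fin w → Bool))

theorem step (a : In) (W : S.Wi) (g : Ctx → E → St) :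
    Real S (Nat.card E * (w + 1) + Nat.card (St × E) * 3 + Nat.card St * (Nat.card (St × E) + 1))
      (In := In × Fin w ⊕ St) (Out := St) fun e x o F => ∀ p ∉ F, ∀ b s,
        (∀ j, x (.inl (a, j)) (S.rn e W p) = ofB (enc b j)) →
        (∀ u, x (.inr u) p = ofB (decide (s = u))) →
        ∀ u, o u p = ofB (decide (g (S.ctx e p) b + s = u)) := by
  refine (((anys S (κ := E) (fun _ j => .inl (a, j)) (fun _ => W) (fun _ => False)
    fun b j _ r => r ≠ enc b j).seq (anys S (κ := St × E)
      (fun q (i : Bool) => bif i then .inl (.inr q.1) else .inr q.2) (fun _ => S.i0)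
      (fun _ => False) fun _ i _ r => r ≠ i)).comp (anys S (κ := St) (fun _ (q : St × E) => q)
        (fun _ => S.i0) (fun _ => False) fun u q z r => r = false ∧ g z q.2 + q.1 = u)).mono
    (by simp) ?_
  rintro e x o F ⟨y, ⟨n, h1, h2⟩, h3⟩ p hp b s hb hs u
  have k1 : ∀ b', n b' p = ofB (decide (b ≠ b')) := fun b' => h1 p hp b' _ hb _ (by
    rw [decide_eq_true_eq, false_or, ← enc.injective.ne_iff, Function.ne_iff])
  have k2 : ∀ q, y q p = ofB (decide ¬(s = q.1 ∧ b = q.2)) := fun q =>
    h2 p hp q (fun i => bif i then decide (s = q.1) else decide (b ≠ q.2))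
      (fun i => by cases i <;> simp [S.rn0, k1, hs]) _ (by simp; tauto)
  exact h3 p hp u _ (fun q => by rw [S.rn0, k2]) _ (by simp [and_assoc])

end Sym

theorem symS : SymS := by
  intro Ctx E In Out ι St _ _ _ _ w enc S src wire g out
  have := Finite.of_equiv _ enc.symm
  have hot : ∀ T : Finset ι, Real S (Nat.card St + T.card * (Nat.card E * (w + 1) +
      Nat.card (St × E) * 3 + Nat.card St * (Nat.card (St × E) + 1))) (In := In × Fin w) (Out := St)
      fun e x o F => ∀ p ∉ F, ∀ v : ι → E,
        (∀ i, Is enc (wd x (src i)) (S.rn e (wire i) p) (v i)) →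
        ∀ u, o u p = ofB (decide (∑ i ∈ T, g (S.ctx e p) i (v i) = u)) := fun T => by
    induction T using Finset.induction_on with
    | empty =>
      exact (Sym.anys S (ι := Empty) (fun _ => Empty.elim) Empty.elim (fun u => 0 = u)
        fun _ _ _ _ => False).mono (by simp) fun e x o F h p hp v _ u =>
          h p hp u Empty.elim (fun i => i.elim) _ (by simp)
    | insert a T ha ih =>
      refine (ih.seq (Sym.step S enc (src a) (wire a) fun z => g z a)).mono
        (by rw [Finset.card_insert_of_notMem ha, Nat.succ_mul, add_assoc]) ?_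
      rintro e x o F ⟨y, h1, h2⟩ p hp v hv u
      rw [Finset.sum_insert ha]
      exact h2 p hp _ _ (hv a) (h1 p hp v hv) u
  refine ((hot Finset.univ).comp (Sym.anys S (κ := Out) (fun _ (u : St) => u) (fun _ => S.i0)
    (fun _ => False) fun k u z r => r = true ∧ out z u k = true)).mono ?_ ?_
  · have h1 : w + 1 ≤ Nat.card E := by
      rw [Nat.card_congr enc]
      simpa [Nat.succ_le_iff] using Nat.lt_two_pow_self
    have h2 : 1 ≤ Nat.card St := Nat.card_pos
    rw [Finset.card_univ, ← Nat.card_eq_fintype_card, Nat.card_prod]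
    generalize Nat.card St = s at *
    generalize Nat.card E = q at *
    have h3 : 1 ≤ q := by omega
    have a1 : s ≤ s * q := Nat.le_mul_of_pos_right _ h3
    have a2 : s * q ≤ s * (s * q) := Nat.le_mul_of_pos_left _ h2
    have a3 : s * (s * q) ≤ s * (s * q) * q := Nat.le_mul_of_pos_right _ h3
    have a4 : q * (w + 1) ≤ s * (s * q) * q :=
      Nat.mul_le_mul ((Nat.le_mul_of_pos_left _ h2).trans a2) h1
    have b1 := Nat.mul_le_mul_left (Nat.card ι)
      (show q * (w + 1) + s * q * 3 + s * (s * q + 1) ≤ 10 * (s * (s * q) * q) by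
        rw [mul_add s]; omega)
    have b2 := Nat.mul_le_mul_left (Nat.card Out) (show s + 1 ≤ 10 * (s * (s * q) * q) by omega)
    nlinarith
  · rintro e x o F ⟨y, h1, h2⟩ p hp v hv k
    exact h2 p hp k _ (fun u => by rw [S.rn0, h1 p hp v hv]) _ (by simp)

end Pool.Agent.PP
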