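import Pool.Agent.MP_13199e_lc.PP.C.Spec

/-! PROJECT PP, block C, row TH: thresholds of the nonzero patterns. -/

set_option autoImplicit false

namespace Pool.Agent.PP

open Function Polynomial

variable {E Idx Cx : Type} [Field E] [Finite E] [AddCommGroup Idx] [Finite Idx] {y m w : ℕ}
  {enc : E ≃ (Fin w → Bool)}

namespace Th

theorem e13 (hy : 1 ≤ y) : e1 y ≤ e3 y :=
  one_div_le_one_div_of_le (by positivity) (pow_le_pow_right₀ (Nat.one_le_cast.2 hy) (by norm_num))

theorem ledd (hy : 2 ≤ y) : y ≤ dd y := by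
  have : y ^ 2 ≤ y ^ 6 := Nat.pow_le_pow_right (by omega) (by norm_num)
  rcases hy.eq_or_lt with rfl | h
  · decide
  · exact Nat.le_sub_of_add_le (by nlinarith)

omit [Finite Idx] in
theorem pw (H : Hyp y m w E Idx) (h : CwS enc y m Idx Cx) (U : AddSubgroup Idx) (γ : Idx) {k : ℕ}
    (hk : k ≤ 2 * y ^ 4) : Real (locS Cx (Lb Idx E m)) ((y + 1) * y ^ 160) (In := Fin w)
      (Out := Fin w) fun _ x o F => ∀ j g, flt U j F ≤ e0 y → Ld y g →
        err enc x U (j + γ) g ≤ e3 y → err enc o U j (mle fun c => g (cub c) ^ k) ≤ e3 y := by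
  have hy : 2 ≤ y := le_trans (by norm_num) H.hy
  refine ((h U Unit (fun _ => γ) (fun _ v => v () ^ k) ?_ (fun _ _ _ _ _ => rfl)
    ⟨E, inferInstance, inferInstance, fun _ _ a => a, fun _ a => a ^ k, ?_, fun _ _ => by simp⟩).ren
    Prod.snd).mono le_rfl fun c x o F r j g h1 h2 h3 =>
      (r j (fun _ => g) _ h1 (fun _ => h3) ⟨fun _ => h2.mono (ledd hy), ?_, rfl⟩).trans
        (e13 (by omega))
  · rw [Nat.card_unique]; exact Nat.one_le_pow _ _ (by omega)
  · rw [H.cE]; exact Nat.pow_le_pow_right (by omega) (by norm_num)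
  · have := h2.poly (X ^ k)
    simp only [natDegree_X_pow, eval_X_pow] at this
    exact this.mono ((Nat.mul_le_mul_right y hk).trans_eq (by ring))

omit [Finite Idx] in
theorem bt (H : Hyp y m w E Idx) (h : CwS enc y m Idx Cx) (U : AddSubgroup Idx) (γ : Idx) :
    Real (locS Cx (Lb Idx E m)) (2 * ((y + 1) * y ^ 160)) (In := Fin w)
      (Out := Fin w) fun _ x o F => ∀ j g, flt U j F ≤ e0 y → Ld y g →
        err enc x U (j + γ) g ≤ e3 y → err enc o U j (mlp fun c => g (cub c) ≠ 0) ≤ e3 y := by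
  have hy : 2 ≤ y := le_trans (by norm_num) H.hy
  have h1 : 1 ≤ y ^ 3 := Nat.one_le_pow _ _ (by omega)
  have h2 : y ^ 3 ≤ y ^ 4 := Nat.pow_le_pow_right (by omega) (by norm_num)
  refine ((pw H h U γ (k := y ^ 3 + 1) (by omega)).comp (pw H h U 0 (k := y ^ 3 - 1)
    (by omega))).mono (two_mul _).ge fun c x o F ⟨z, r, r'⟩ j g a b d => ?_
  have := r' j _ a ((ld_mle _).mono H.hm) (by rw [add_zero]; exact r j g a b d)
  have e : (y ^ 3 + 1) * (y ^ 3 - 1) = Nat.card E - 1 := by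
    rw [H.cE, show y ^ 6 = (y ^ 3) ^ 2 by ring, ← Nat.sq_sub_sq, one_pow]
  have _ := Fintype.ofFinite E
  refine le_of_eq_of_le (congrArg (fun G => err enc o U j (mle G)) (funext fun c => ?_)) this
  rw [H.ld.cube, ← pow_mul, e, Nat.card_eq_fintype_card]
  by_cases u : g (cub c) = 0
  · rw [bit_neg (not_not.2 u), u, zero_pow (Nat.sub_ne_zero_of_lt Fintype.one_lt_card)]
  · rw [bit_pos u, FiniteField.pow_card_sub_one_eq_one _ u]

theorem interp {N : ℕ} (hN : N < Nat.card E - 1) : ∃ (ζ : E) (q : (ℕ → E) → E[X]),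
    ∀ r, (q r).natDegree ≤ N ∧ ∀ n ≤ N, (q r).eval (ζ ^ n) = r n := by
  classical
  obtain ⟨ζ, hζ⟩ := IsCyclic.exists_ofOrder_eq_natCard (α := Eˣ)
  have hi : Set.InjOn (fun n => (ζ : E) ^ n) (Finset.range (N + 1)) := fun a ha b hb e => by
    rw [Nat.card_units] at hζ
    simp only [Finset.coe_range, Set.mem_Iio] at ha hb
    exact pow_injOn_Iio_orderOf (x := ζ) (by simp; omega) (by simp; omega)
      (Units.ext (by simpa using e))
  refine ⟨ζ, fun r => Lagrange.interpolate (Finset.range (N + 1)) (fun n => (ζ : E) ^ n) r,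
    fun r => ⟨natDegree_le_iff_degree_le.2 ?_, fun n hn =>
      Lagrange.eval_interpolate_at_node r hi (Finset.mem_range.2 (by omega))⟩⟩
  simpa using Lagrange.degree_interpolate_le r hi

end Th

open Th in
omit [Finite Idx] in
theorem thS (H : Hyp y m w E Idx) (h : CwS enc y m Idx Cx) : ThS enc y m Idx Cx := by
  classical
  intro U ι _ γ kf hι hk
  have := Fintype.ofFinite ι
  have hy : 3 ≤ y := le_trans (by norm_num) H.hy
  have h6 : y ^ 2 + 1 < y ^ 6 := by
    have : y ^ 3 ≤ y ^ 6 := Nat.pow_le_pow_right (by omega) (by norm_num)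
    nlinarith
  obtain ⟨ζ, q, hq⟩ := interp (E := E) (N := Nat.card ι) (by rw [H.cE]; omega)
  refine ((Real.par fun i : ι => (bt H h U (γ i)).ren fun b => (i, b)).comp (h U ι (fun _ => 0)
    (fun c v => (q fun n => bit (kf c.2.1 ≤ n / Nat.card ι)).eval (∏ i, (1 + (ζ - 1) * v i))) hι
    (fun _ _ j u hu => by simp only [hk j u hu])
    ⟨Additive E, inferInstance, inferInstance, fun _ _ a => .ofMul (1 + (ζ - 1) * a),
      fun c a => (q fun n => bit (kf c.2.1 ≤ n / Nat.card ι)).eval a.toMul, ?_,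
      fun _ _ => by simp [toMul_sum]⟩)).mono ?_ ?_
  · exact H.cE.trans_le (Nat.pow_le_pow_right (by omega) (by norm_num))
  · rw [show y ^ 164 = y ^ 4 * y ^ 160 by ring, ← mul_assoc, ← mul_assoc, ← add_mul]
    refine Nat.mul_le_mul_right _ ?_
    have := Nat.mul_le_mul_right (2 * (y + 1)) hι
    have : 3 * y ^ 3 ≤ y ^ 4 := by rw [pow_succ' y 3]; exact Nat.mul_le_mul_right _ hy
    have : 3 * y ^ 2 ≤ y ^ 3 := by rw [pow_succ' y 2]; exact Nat.mul_le_mul_right _ hy
    nlinarith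
  rintro c x o F ⟨z, r, r'⟩ j g G a b ⟨d, rfl⟩
  refine r' j (fun i => mlp fun c => g i (cub c) ≠ 0) _ a
    (fun i => by rw [add_zero]; exact r i j _ a (d i) (b i))
    ⟨fun i => (ld_mlp _).mono (H.hm.trans (ledd (by omega))), ?_, congrArg mle (funext fun c => ?_)⟩
  · refine ((Ld.prod Finset.univ fun i _ => (Ld.const _ (1 : E)).add ((Ld.const 0 (ζ - 1)).mul
      (ld_mlp fun c => g i (cub c) ≠ 0))).poly (q fun n => bit (kf j ≤ n / Nat.card ι))).mono ?_
    rw [Finset.card_univ, ← Nat.card_eq_fintype_card, zero_add]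
    exact (Nat.mul_le_mul ((hq _).1.trans hι) (Nat.mul_le_mul hι H.hm)).trans (by nlinarith)
  · have e : ∏ i, (1 + (ζ - 1) * (mlp fun c => g i (cub c) ≠ 0) (cub c)) =
        ζ ^ cn fun i => g i (cub c) ≠ 0 := by
      rw [cn_eq, ← Finset.prod_const, Finset.prod_filter]
      refine Finset.prod_congr rfl fun i _ => ?_
      rw [mlp, H.ld.cube]
      split_ifs with u
      · rw [bit_pos u]; ring
      · rw [bit_neg u]; ring
    rw [e, (hq _).2 _ (cn_le _), ← pr_eq_cn]

end Pool.Agent.PP
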