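import Pool.Agent.MP_13199e_lc.PP.C.Spec

/-! PROJECT PP, block C: threshold, selection and majority gates. -/

set_option autoImplicit false

namespace Pool.Agent.PP

open Function

namespace Thr

variable {Ctx In ι : Type} (S : Stg Ctx) (src : ι → In) (wire : ι → S.Wi) (fl : ι → Bool)

theorem const {κ : Type} [Finite κ] (f : κ → Ctx → Bool) :
    Real S (Nat.card κ) (In := In) (Out := κ) fun e _ o F =>
      ∀ p ∉ F, ∀ k, o k p = ofB (f k (S.ctx e p)) :=
  ⟨⟨κ, inferInstance, fun k _ => .inr k, fun _ _ => S.i0, fun _ _ => false, fun k c _ _ => f k c⟩,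
    .inr, le_rfl, fun _ _ _ _ h p hp k => h p hp k _ fun _ _ _ _ => rfl⟩

open Classical in
theorem tab (k : Ctx → ℕ) (n : ℕ) (s : Finset ι) :
    Real S ((2 * s.card + 1) * (n + 1)) (In := In) (Out := Fin (n + 1)) fun e x o F =>
      ∀ p ∉ F, ∀ j : Fin (n + 1), s.card + j ≤ n →
        (k (S.ctx e p) ≤ (s.filter fun i =>
          rd (fl i) (x (src i) (S.rn e (wire i) p)) = some true).card + j → o j p = ofB true) ∧
        ((s.filter fun i => rd (fl i) (x (src i) (S.rn e (wire i) p)) ≠ some false).card + j <
          k (S.ctx e p) → o j p = ofB false) := by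
  induction s using Finset.induction_on with
  | empty =>
    refine (const S fun (j : Fin (n + 1)) c => decide (k c ≤ j)).mono (by simp)
      fun e x o F h p hp j _ => ⟨fun u => ?_, fun u => ?_⟩
    · rw [h p hp, decide_eq_true (by simpa using u)]
    · rw [h p hp, decide_eq_false (by simpa using u)]
  | insert a s ha ih =>
    refine (ih.seq ((Real.gates S (κ := Fin (n + 1))
      (fun j b => bif b then .inr (j + 1) else .inl (src a)) (fun _ b => bif b then S.i0 else wire a)
      (fun _ _ => fl a) fun _ _ => and).seq (Real.gates S (κ := Fin (n + 1))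
        (fun j b => bif b then .inr j else .inl (.inr j)) (fun _ _ => S.i0) (fun _ _ => false)
        fun _ _ => or))).mono (by simp [Finset.card_insert_of_notMem ha]; nlinarith) ?_
    rintro e x o F ⟨y, h1, z, h2, h3⟩ p hp j hj
    rw [Finset.card_insert_of_notMem ha] at hj
    have e1 : ((j + 1 : Fin (n + 1)) : ℕ) = j + 1 := Fin.val_add_one_of_lt (by
      rw [Fin.lt_def, Fin.val_last]; omega)
    obtain ⟨a1, a2⟩ := h1 p hp j (by omega)
    obtain ⟨b1, b2⟩ := h1 p hp (j + 1) (by omega)
    have h2 := h2 p hp j
    have h3 := h3 p hp j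
    simp only [cond_true, cond_false, Sum.elim_inl, Sum.elim_inr, S.rn0] at h2 h3
    simp only [Finset.filter_insert]
    refine ⟨fun u => ?_, fun u => ?_⟩ <;> split_ifs at u with c
    · rw [Finset.card_insert_of_notMem fun u => ha (Finset.mem_filter.1 u).1] at u
      rw [c, b1 (by omega), rd_ofB] at h2
      rw [h2.pure, rd_ofB] at h3
      exact h3.right fun _ => Bool.or_true _
    · rw [a1 u, rd_ofB] at h3
      exact h3.left fun _ => rfl
    · rw [Finset.card_insert_of_notMem fun u => ha (Finset.mem_filter.1 u).1] at u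
      rw [b2 (by omega), rd_ofB] at h2
      rw [h2.right fun _ => Bool.and_false _, a2 (by omega), rd_ofB] at h3
      exact h3.pure
    · rw [not_not.1 c] at h2
      rw [h2.left fun _ => rfl, a2 u, rd_ofB] at h3
      exact h3.pure

open Classical in
theorem sel (g : Ctx → ι) (s : Finset ι) :
    Real S (s.card + 1) (In := In) (Out := Unit) fun e x o F => ∀ p ∉ F, g (S.ctx e p) ∈ s →
      ∀ b, rd (fl (g (S.ctx e p))) (x (src (g (S.ctx e p))) (S.rn e (wire (g (S.ctx e p))) p)) =
        some b → o () p = ofB b := by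
  induction s using Finset.induction_on with
  | empty => exact (const S fun _ _ => false).mono (by simp) fun _ _ _ _ _ _ _ h => by simp at h
  | insert a s ha ih =>
    refine (ih.seq (Real.gate S (fun b => bif b then .inr () else .inl (src a))
      (fun b => bif b then S.i0 else wire a) (fun _ => fl a)
      fun c u v => if g c = a then u else v)).mono (by simp [Finset.card_insert_of_notMem ha]) ?_
    rintro e x o F ⟨y, h1, h2⟩ p hp hg b hb
    have h2 := h2 p hp
    simp only [cond_true, cond_false, Sum.elim_inl, Sum.elim_inr, S.rn0] at h2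
    by_cases c : g (S.ctx e p) = a
    · rw [← c, hb] at h2
      exact h2.left fun _ => if_pos rfl
    · rw [h1 p hp ((Finset.mem_insert.1 hg).resolve_left c) b hb, rd_ofB] at h2
      exact h2.right fun _ => if_neg c

end Thr

theorem thrS : ThrS := fun _ _ ι _ S src wire fl k => by
  classical
  have := Fintype.ofFinite ι
  refine ((Thr.tab S src wire fl k (Fintype.card ι) Finset.univ).out fun _ => 0).mono
    (by simp; nlinarith) ?_
  rintro e x _ F ⟨o, h, rfl⟩ p hp
  simpa only [cn_eq, Fin.val_zero, add_zero] using h p hp 0 le_rfl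

theorem selS : SelS := fun _ _ ι _ S src wire fl g => by
  have := Fintype.ofFinite ι
  exact (Thr.sel S src wire fl g Finset.univ).mono (by simp) fun _ _ _ _ h p hp =>
    h p hp (Finset.mem_univ _)

theorem majS : MajS := fun _ _ ι _ w enc S wire => by
  refine ((Real.par fun b : Fin w => thrS _ _ ι S (fun _ => b) wire (fun _ => false)
    fun _ => Nat.card ι / 2 + 1).out fun b => (b, ())).mono (by simp) ?_
  rintro e x _ F ⟨o, h, rfl⟩ p hp a ha b
  obtain ⟨i, -⟩ := exists_of_pr_pos (one_half_pos.trans ha)
  have : Nonempty ι := ⟨i⟩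
  have n : (0 : ℝ) < Nat.card ι := Nat.cast_pos.2 Nat.card_pos
  cases c : enc a b
  · refine (h b p hp).2 ?_
    have u := (pr_mono (p := fun i => rd false (x b (S.rn e (wire i) p)) ≠ some false)
      (q := fun i => ¬Is enc x (S.rn e (wire i) p) a)
      fun i u v => u (by rw [v b, c, rd_ofB])).trans_eq (pr_not _)
    rw [pr_eq_cn, div_le_iff₀ n] at u
    have : 2 * cn (fun i => rd false (x b (S.rn e (wire i) p)) ≠ some false) < Nat.card ι := by
      rw [← Nat.cast_lt (α := ℝ)]; push_cast; nlinarith
    omega
  · refine (h b p hp).1 ?_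
    have u := ha.trans_le (pr_mono (q := fun i => rd false (x b (S.rn e (wire i) p)) = some true)
      fun i v => by rw [v b, c, rd_ofB])
    rw [pr_eq_cn, lt_div_iff₀ n] at u
    have : Nat.card ι < 2 * cn (fun i => rd false (x b (S.rn e (wire i) p)) = some true) := by
      rw [← Nat.cast_lt (α := ℝ)]; push_cast; linarith
    omega

end Pool.Agent.PP
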